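import Pool.Agent.H284Z.Basic

set_option autoImplicit false
set_option linter.style.haveILetI false
set_option linter.unusedSectionVars false
set_option linter.unusedVariables false

namespace Pool.Agent.H284Z

open Equiv

theorem pgroup_of_no_prime {G : Type} [Group G] [Finite G] (H : Subgroup G) {q : ℕ}
    (hq : q.Prime) (h : ∀ r : ℕ, r.Prime → r ≠ q → ∀ g ∈ H, g ^ r = 1 → g = 1) :
    IsPGroup q H := by
  haveI := Fact.mk hq
  rw [IsPGroup.iff_card]
  have hpos : Nat.card H ≠ 0 := Nat.card_pos.ne'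
  refine ⟨_, Nat.eq_prime_pow_of_unique_prime_dvd hpos (fun {r} hr hd => ?_)⟩
  by_contra hne
  haveI := Fact.mk hr
  obtain ⟨a, ha⟩ := exists_prime_orderOf_dvd_card' r hd
  have h1 : (a : G) ^ r = 1 := by
    have := pow_orderOf_eq_one a
    rw [ha] at this
    exact congrArg Subtype.val this
  have h2 : a = 1 := Subtype.ext (h r hr hne a a.2 h1)
  rw [h2, orderOf_one] at ha
  exact hr.one_lt.ne ha

section fixedpoints

variable {α : Type} [Finite α]

/-- action of a permutation group on an invariant set -/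
@[reducible] def resAct (P : Subgroup (Perm α)) (X : Set α) (h : ∀ g ∈ P, ∀ x ∈ X, g x ∈ X) :
    MulAction P X where
  smul g x := ⟨g.1 x.1, h _ g.2 _ x.2⟩
  one_smul x := rfl
  mul_smul g g' x := rfl

theorem fix_of_not_dvd {P : Subgroup (Perm α)} {q : ℕ} (hq : q.Prime) (hP : IsPGroup q P)
    {X : Set α} (h : ∀ g ∈ P, ∀ x ∈ X, g x ∈ X) (hd : ¬ q ∣ Nat.card X) :
    ∃ x ∈ X, ∀ g ∈ P, g x = x := by
  haveI := Fact.mk hq
  letI := resAct P X h
  obtain ⟨x, hx⟩ := hP.nonempty_fixed_point_of_prime_not_dvd_card X hd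
  exact ⟨x, x.2, fun g hg => congrArg Subtype.val (hx ⟨g, hg⟩)⟩

theorem fix_of_dvd {P : Subgroup (Perm α)} {q : ℕ} (hq : q.Prime) (hP : IsPGroup q P)
    {X : Set α} (h : ∀ g ∈ P, ∀ x ∈ X, g x ∈ X) (hd : q ∣ Nat.card X) {a : α} (ha : a ∈ X)
    (hfa : ∀ g ∈ P, g a = a) : ∃ x ∈ X, x ≠ a ∧ ∀ g ∈ P, g x = x := by
  haveI := Fact.mk hq
  letI := resAct P X h
  obtain ⟨x, hx, hne⟩ := hP.exists_fixed_point_of_prime_dvd_card_of_fixed_point X hd
    (a := ⟨a, ha⟩) (fun g => Subtype.ext (hfa g g.2))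
  exact ⟨x, x.2, fun e => hne (Subtype.ext e.symm), fun g hg => congrArg Subtype.val (hx ⟨g, hg⟩)⟩

theorem fix_single {g : Perm α} {r : ℕ} (hr : r.Prime) (hg : g ^ r = 1)
    {X : Set α} (h : ∀ x ∈ X, g x ∈ X) (hd : ¬ r ∣ Nat.card X) : ∃ x ∈ X, g x = x := by
  have hP : IsPGroup r (Subgroup.zpowers g) := by
    rintro ⟨_, n, rfl⟩
    refine ⟨1, Subtype.ext ?_⟩
    show (g ^ n) ^ (r ^ 1) = 1
    rw [pow_one, ← zpow_natCast, ← zpow_mul, mul_comm, zpow_mul, zpow_natCast, hg, one_zpow]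
  have h2 : ∀ n : ℕ, ∀ x ∈ X, (g ^ n) x ∈ X := by
    intro n
    induction n with
    | zero => intro x hx; simpa using hx
    | succ n ih => intro x hx; rw [pow_succ']; exact h _ (ih x hx)
  obtain ⟨x, hx, hfx⟩ := fix_of_not_dvd hr hP (X := X) (by
    intro k hk x hx
    obtain ⟨n, rfl⟩ := (mem_powers_iff_mem_zpowers.2 hk)
    exact h2 n x hx) hd
  exact ⟨x, hx, hfx g (Subgroup.mem_zpowers g)⟩

end fixedpoints

theorem not_dvd_pow {p r k : ℕ} (hp : p.Prime) (hr : r.Prime) (h : r ≠ p) : ¬ r ∣ p ^ k :=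
  fun hd => h ((Nat.prime_dvd_prime_iff_eq hr hp).1 (hr.dvd_of_dvd_pow hd))

variable {F : Type} [ALoop F] [Finite F]

theorem dvd_card_of_ne_bot {X : Submonoid F} (h : Asc X) {p : ℕ} (hp : p.Prime)
    (he : ∀ a ∈ X, pw a p = 1) {a : F} (ha : a ∈ X) (h1 : a ≠ 1) : p ∣ Nat.card X := by
  obtain ⟨k, hk⟩ := card_pow h hp he
  have hn : Nontrivial X := (Submonoid.nontrivial_iff_exists_ne_one X).2 ⟨a, ha, h1⟩
  have h2 : 1 < Nat.card X := Finite.one_lt_card_iff_nontrivial.2 hn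
  rw [hk] at h2 ⊢
  cases k with
  | zero => simp at h2
  | succ k => exact dvd_pow_self p (Nat.succ_ne_zero k)

/-- minimal normal subloops -/
def MinNormal (N : Submonoid F) : Prop :=
  IsNormal N ∧ ∀ X : Submonoid F, IsNormal X → X ≤ N → X = ⊥ ∨ X = N

section affine

variable {F₂ : Type} [ALoop F₂] (π : F →* F₂)

/-- the group of elements preserving cosets and acting on the kernel by translations -/
def Btr (hA : Asc (MonoidHom.mker π)) : Subgroup (Perm F) where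
  carrier := {g | g ∈ Mlt F ∧ (∀ y, π (g y) = π y) ∧ ∀ e, π e = 1 → g e = g 1 * e}
  one_mem' := ⟨one_mem _, fun _ => rfl, fun e _ => by simp⟩
  mul_mem' := by
    rintro g h ⟨hg, hg1, hg2⟩ ⟨hh, hh1, hh2⟩
    have a1 : π (g 1) = 1 := by rw [hg1, map_one]
    have a2 : π (h 1) = 1 := by rw [hh1, map_one]
    refine ⟨mul_mem hg hh, fun y => by rw [Perm.mul_apply, hg1, hh1], fun e he => ?_⟩
    simp only [Perm.mul_apply]
    rw [hh2 e he, hg2 _ (by rw [map_mul, a2, he, mul_one]), hg2 _ a2, hA _ a1 _ a2 _ he]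
  inv_mem' := by
    rintro g ⟨hg, hg1, hg2⟩
    have h0 : ∀ y, π (g⁻¹ y) = π y := fun y => by rw [← hg1 (g⁻¹ y)]; simp
    have a1 : π (g 1) = 1 := by rw [hg1, map_one]
    have a2 : π (g⁻¹ 1) = 1 := by rw [h0, map_one]
    refine ⟨inv_mem hg, h0, fun e he => ?_⟩
    apply g.injective
    rw [hg2 (g⁻¹ 1 * e) (by rw [map_mul, a2, he, mul_one]), ← hA _ a1 _ a2 _ he, ← hg2 _ a2]
    simp

theorem Btr_pgroup (hA : Asc (MonoidHom.mker π)) {q : ℕ} (hq : q.Prime)
    (he : ∀ a ∈ MonoidHom.mker π, pw a q = 1) : IsPGroup q (Btr π hA) := by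
  obtain ⟨k, hk⟩ := card_pow hA hq he
  refine pgroup_of_no_prime _ hq (fun r hr hne g hg hgr => ?_)
  obtain ⟨hg, hg1, hg2⟩ := hg
  have hfix : ∀ y, ∃ z, π z = π y ∧ g z = z := fun y =>
    fix_single hr hgr (X := {z | π z = π y}) (fun x hx => by
      show π (g x) = π y
      rw [hg1]; exact hx) (by rw [card_fiber, hk]; exact not_dvd_pow hq hr hne)
  have h1 : g 1 = 1 := by
    obtain ⟨z, hz, hgz⟩ := hfix 1
    rw [hg2 z (by rw [hz, map_one])] at hgz
    apply rcan (a := z)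
    rw [hgz, one_mul]
  have haut := aut_of_mem hg h1
  ext y
  obtain ⟨z, hz, hgz⟩ := hfix y
  obtain ⟨e, he, rfl⟩ := exists_ker π hz.symm
  rw [haut, hgz, hg2 e he, h1, one_mul]; rfl

/-- the linear part of `g` at the point `y` -/
noncomputable def lin (y : F) (g : Perm F) : Perm F :=
  (L ((L y)⁻¹ (g y)))⁻¹ * (L y)⁻¹ * g * L y

theorem lin_spec (y : F) (g : Perm F) (x : F) :
    y * ((L y)⁻¹ (g y) * lin y g x) = g (y * x) := by simp [lin]

theorem lin_mem (y : F) {g : Perm F} (hg : g ∈ Mlt F) : lin y g ∈ Mlt F :=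
  mul_mem (mul_mem (mul_mem (inv_mem (L_mem _)) (inv_mem (L_mem _))) hg) (L_mem _)

theorem lin_one (y : F) (g : Perm F) : lin y g 1 = 1 := by simp [lin]

theorem lin_ker (y : F) {g : Perm F} (hg1 : ∀ y, π (g y) = π y) :
    π ((L y)⁻¹ (g y)) = 1 := by
  apply lcan (a := π y)
  rw [← map_mul, mul_Linv, hg1, mul_one]

theorem lin_triv (y : F) {g : Perm F} (hg1 : ∀ y, π (g y) = π y) (x : F) :
    π (lin y g x) = π x := by
  have := congrArg π (lin_spec y g x)
  rw [map_mul, map_mul, lin_ker π y hg1, one_mul, hg1, map_mul] at this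
  exact lcan this

/-- invariance under the inner mappings that are trivial on the quotient -/
def JInv (X : Submonoid F) : Prop :=
  ∀ g ∈ Mlt F, g 1 = 1 → (∀ y, π (g y) = π y) → ∀ x ∈ X, g x ∈ X

/-- elements associating with `y` -/
def Cy (y : F) (hA : Asc (MonoidHom.mker π)) (hC : Com (MonoidHom.mker π)) : Submonoid F where
  carrier := {e | π e = 1 ∧ ∀ s, π s = 1 → (y * e) * s = y * (e * s)}
  one_mem' := ⟨map_one _, fun s _ => by simp⟩
  mul_mem' := by
    rintro a b ⟨ha, ha'⟩ ⟨hb, hb'⟩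
    refine ⟨by rw [map_mul, ha, hb, mul_one], fun s hs => ?_⟩
    have hb2 : (R s)⁻¹ * (L y)⁻¹ * R s * L y ∈ AutG F :=
      aut_of_mem (mul_mem (mul_mem (mul_mem (inv_mem (R_mem _)) (inv_mem (L_mem _))) (R_mem _))
        (L_mem _)) (by simp)
    set β := (R s)⁻¹ * (L y)⁻¹ * R s * L y with hβ
    have sp : ∀ x, y * (β x * s) = (y * x) * s := fun x => by simp [hβ]
    have e1 : β a = a := rcan (lcan ((sp a).trans (ha' s hs)))
    have e2 : β b = b := rcan (lcan ((sp b).trans (hb' s hs)))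
    rw [← sp, hb2, e1, e2]

theorem Cy_equiv (hA : Asc (MonoidHom.mker π)) (hC : Com (MonoidHom.mker π)) {g : Perm F}
    (hg : g ∈ Mlt F) (h1 : g 1 = 1) {y e : F} (he : e ∈ Cy π y hA hC) :
    g e ∈ Cy π (g y) hA hC := by
  have haut := aut_of_mem hg h1
  refine ⟨normal_ker π g hg h1 e he.1, fun s hs => ?_⟩
  have hs' : π (g⁻¹ s) = 1 := normal_ker π g⁻¹ (inv_mem hg) (inv_one h1) s hs
  have := congrArg g (he.2 _ hs')
  rw [haut, haut, haut, haut] at this
  simpa using this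

theorem Cy_shift (hA : Asc (MonoidHom.mker π)) (hC : Com (MonoidHom.mker π)) {y c e : F}
    (hc : π c = 1) (he : e ∈ Cy π (y * c) hA hC) : e ∈ Cy π y hA hC := by
  have hl1 : (LL y c)⁻¹ 1 = 1 := inv_one (aut_one (LL_aut _ _))
  have hlm : (LL y c)⁻¹ ∈ Mlt F := inv_mem (LL_mem _ _)
  have hla : (LL y c)⁻¹ ∈ AutG F := inv_mem (LL_aut _ _)
  set l := (LL y c)⁻¹ with hl
  have spl : ∀ x, (y * c) * x = y * (c * l x) := fun x => by
    rw [← LL_spec]; simp [hl]
  have hle : π (l e) = 1 := normal_ker π l hlm hl1 e he.1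
  have key : l e ∈ Cy π y hA hC := by
    refine ⟨hle, fun s hs => ?_⟩
    have hbm : (R s)⁻¹ * (L y)⁻¹ * R s * L y ∈ Mlt F :=
      mul_mem (mul_mem (mul_mem (inv_mem (R_mem _)) (inv_mem (L_mem _))) (R_mem _)) (L_mem _)
    have hb1 : ((R s)⁻¹ * (L y)⁻¹ * R s * L y) 1 = 1 := by simp
    have hb2 := aut_of_mem hbm hb1
    set β := (R s)⁻¹ * (L y)⁻¹ * R s * L y with hβ
    have sp : ∀ x, y * (β x * s) = (y * x) * s := fun x => by simp [hβ]
    have hls : π (l s) = 1 := normal_ker π l hlm hl1 s hs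
    have hβc : π (β c) = 1 := normal_ker π β hbm hb1 c hc
    have hβe : π (β (l e)) = 1 := normal_ker π β hbm hb1 _ hle
    have e1 : β c * s = c * l s := lcan ((sp c).trans (spl s))
    have e2 : (β c * β (l e)) * s = c * (l e * l s) := by
      apply lcan (a := y)
      rw [← hb2, sp, ← spl, he.2 s hs, spl, hla]
    have e3 : β (l e) = l e := by
      apply lcan (a := c * l s)
      calc c * l s * β (l e) = (β c * s) * β (l e) := by rw [e1]
        _ = β c * (β (l e) * s) := by rw [hA _ hβc _ hs _ hβe, hC _ hs _ hβe]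
        _ = c * (l e * l s) := by rw [← hA _ hβc _ hβe _ hs, e2]
        _ = c * l s * l e := by rw [hA _ hc _ hls _ hle, hC _ hle _ hls]
    rw [← sp, e3]
  have := Cy_equiv π hA hC (LL_mem y c) (aut_one (LL_aut _ _)) key
  rw [LL_fix] at this
  simpa [hl] using this

theorem Cy_JInv (hA : Asc (MonoidHom.mker π)) (hC : Com (MonoidHom.mker π)) (y : F) :
    JInv π (Cy π y hA hC) := by
  intro g hg h1 hg1 x hx
  have := Cy_equiv π hA hC hg h1 hx
  obtain ⟨c, hc, e⟩ := exists_ker π (hg1 y)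
  rw [e] at this
  exact Cy_shift π hA hC hc this

theorem exists_Cy (hA : Asc (MonoidHom.mker π)) (hC : Com (MonoidHom.mker π)) {q : ℕ}
    (hq : q.Prime) (he : ∀ a ∈ MonoidHom.mker π, pw a q = 1) (X : Submonoid F)
    (hX : X ≤ MonoidHom.mker π) (hJ : JInv π X) {a : F} (ha : a ∈ X) (ha1 : a ≠ 1) (y : F) :
    ∃ e ∈ X, e ≠ 1 ∧ e ∈ Cy π y hA hC := by
  haveI := Fact.mk hq
  have hP := Btr_pgroup π hA hq he
  letI : MulAction (Btr π hA) X :=
    { smul := fun g x => ⟨lin y g.1 x.1,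
        hJ _ (lin_mem y g.2.1) (lin_one y _) (lin_triv π y g.2.2.1) _ x.2⟩
      one_smul := fun x => Subtype.ext (by
        show lin y 1 x.1 = x.1
        have := lin_spec y 1 x.1
        rw [Perm.one_apply, Linv_self, one_mul] at this
        exact lcan this)
      mul_smul := fun g h x => Subtype.ext (by
        show lin y (g.1 * h.1) x.1 = lin y g.1 (lin y h.1 x.1)
        have hx : π x.1 = 1 := hX x.2
        have haut := aut_of_mem (lin_mem y g.2.1) (lin_one y _)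
        have c1 := lin_ker π y g.2.2.1
        have c2 := lin_ker π y h.2.2.1
        have c3 : π (lin y g.1 ((L y)⁻¹ (h.1 y))) = 1 := by rw [lin_triv π y g.2.2.1, c2]
        have c4 : π (lin y g.1 (lin y h.1 x.1)) = 1 := by
          rw [lin_triv π y g.2.2.1, lin_triv π y h.2.2.1, hx]
        have e1 : (L y)⁻¹ ((g.1 * h.1) y) =
            (L y)⁻¹ (g.1 y) * lin y g.1 ((L y)⁻¹ (h.1 y)) := by
          apply lcan (a := y)
          rw [lin_spec, mul_Linv, mul_Linv]; rfl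
        apply lcan (a := (L y)⁻¹ ((g.1 * h.1) y))
        apply lcan (a := y)
        rw [lin_spec, e1, hA _ c1 _ c3 _ c4, ← haut, lin_spec, lin_spec]; rfl) }
  have hd : q ∣ Nat.card X :=
    dvd_card_of_ne_bot (fun a ha b hb c hc => hA _ (hX ha) _ (hX hb) _ (hX hc)) hq
      (fun a ha => he a (hX ha)) ha ha1
  obtain ⟨e, hfe, hne⟩ := hP.exists_fixed_point_of_prime_dvd_card_of_fixed_point X hd
    (a := 1) (fun g => Subtype.ext (lin_one y g.1))
  refine ⟨e, e.2, fun h => hne (Subtype.ext h.symm), hX e.2, fun s hs => ?_⟩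
  have hR : R s ∈ Btr π hA := by
    refine ⟨R_mem _, fun y => by simp [hs], fun e he => ?_⟩
    simp only [R_apply, one_mul]
    exact hC _ he _ hs
  have h1 : lin y (R s) e.1 = e.1 := congrArg Subtype.val (hfe ⟨R s, hR⟩)
  have h2 := lin_spec y (R s) e.1
  rw [h1] at h2
  simp only [R_apply, Linv_mul] at h2
  rw [← h2, hC _ hs _ (hX e.2)]

theorem affine (hM : MinNormal (MonoidHom.mker π)) (hA : Asc (MonoidHom.mker π))
    (hC : Com (MonoidHom.mker π)) {q : ℕ} (hq : q.Prime)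
    (he : ∀ a ∈ MonoidHom.mker π, pw a q = 1) (y e s : F) (h1 : π e = 1) (h2 : π s = 1) :
    (y * e) * s = y * (e * s) := by
  classical
  by_cases hne : e = 1
  · subst hne; simp
  have key : ∀ T : Finset F, ∃ a, a ≠ 1 ∧ π a = 1 ∧ ∀ y ∈ T, a ∈ Cy π y hA hC := by
    intro T
    induction T using Finset.induction_on with
    | empty => exact ⟨e, hne, h1, by simp⟩
    | insert z T hz ih =>
      obtain ⟨a, ha1, ha, haT⟩ := ih
      obtain ⟨b, hb, hb1, hbz⟩ := exists_Cy π hA hC hq he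
        (MonoidHom.mker π ⊓ ⨅ y ∈ T, Cy π y hA hC) inf_le_left (by
          intro g hg g1 hg1 x hx
          simp only [Submonoid.mem_inf, Submonoid.mem_iInf] at hx ⊢
          exact ⟨normal_ker π g hg g1 x hx.1, fun y hy => Cy_JInv π hA hC y g hg g1 hg1 x
            (hx.2 y hy)⟩) (a := a) (by
          simp only [Submonoid.mem_inf, Submonoid.mem_iInf]
          exact ⟨ha, haT⟩) ha1 z
      simp only [Submonoid.mem_inf, Submonoid.mem_iInf] at hb
      refine ⟨b, hb1, hb.1, fun y hy => ?_⟩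
      rcases Finset.mem_insert.1 hy with rfl | hy
      · exact hbz
      · exact hb.2 y hy
  haveI := Fintype.ofFinite F
  obtain ⟨a, ha1, ha, haT⟩ := key Finset.univ
  have hn : IsNormal (⨅ y, Cy π y hA hC) := by
    intro g hg g1 x hx
    rw [Submonoid.mem_iInf] at hx ⊢
    intro y
    have := Cy_equiv π hA hC hg g1 (hx (g⁻¹ y))
    simpa using this
  rcases hM.2 _ hn (fun x hx => (Submonoid.mem_iInf.1 hx 1).1) with h | h
  · exfalso
    have : a ∈ ⨅ y, Cy π y hA hC := Submonoid.mem_iInf.2 (fun y => haT y (Finset.mem_univ y))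
    rw [h] at this
    exact ha1 this
  · have : e ∈ ⨅ y, Cy π y hA hC := by rw [h]; exact h1
    exact (Submonoid.mem_iInf.1 this y).2 s h2

/-- inner mappings trivial on the quotient -/
def Kg : Subgroup (Perm F) where
  carrier := {g | g ∈ Mlt F ∧ g 1 = 1 ∧ ∀ y, π (g y) = π y}
  one_mem' := ⟨one_mem _, rfl, fun _ => rfl⟩
  mul_mem' := by
    rintro g h ⟨hg, hg1, hg2⟩ ⟨hh, hh1, hh2⟩
    exact ⟨mul_mem hg hh, by rw [Perm.mul_apply, hh1, hg1],
      fun y => by rw [Perm.mul_apply, hg2, hh2]⟩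
  inv_mem' := by
    rintro g ⟨hg, hg1, hg2⟩
    exact ⟨inv_mem hg, inv_one hg1, fun y => by rw [← hg2 (g⁻¹ y)]; simp⟩

/-- fixed points of an automorphism -/
def fixSub (g : Perm F) (hg : g ∈ AutG F) : Submonoid F where
  carrier := {x | g x = x}
  one_mem' := aut_one hg
  mul_mem' := by
    intro a b ha hb
    show g (a * b) = a * b
    rw [hg, ha, hb]

theorem first_reduction (hM : MinNormal (MonoidHom.mker π)) (hA : Asc (MonoidHom.mker π))
    {p : ℕ} (hp : p.Prime) (he : ∀ a ∈ MonoidHom.mker π, pw a p = 1) :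
    (∃ U : Submonoid F, U ≠ ⊤ ∧ ∀ y, ∃ u ∈ U, π u = π y) ∨
      ∀ k ∈ Kg π, ∀ a, π a = 1 → k a = a := by
  obtain ⟨n, hn⟩ := card_pow hA hp he
  by_cases h : ∀ r : ℕ, r.Prime → r ≠ p → ∀ g ∈ Kg π, g ^ r = 1 → g = 1
  · right
    have hP := pgroup_of_no_prime _ hp h
    intro k hk a ha
    by_cases ha1 : a = 1
    · rw [ha1]; exact hk.2.1
    obtain ⟨b, hb, hb1, hfb⟩ := fix_of_dvd hp hP (X := (MonoidHom.mker π : Set F))
      (fun g hg x hx => normal_ker π g hg.1 hg.2.1 x hx)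
      (dvd_card_of_ne_bot hA hp he ha ha1) (a := 1) (one_mem _) (fun g hg => hg.2.1)
    let C : Submonoid F :=
      { carrier := {x | π x = 1 ∧ ∀ g ∈ Kg π, g x = x}
        one_mem' := ⟨map_one _, fun g hg => hg.2.1⟩
        mul_mem' := by
          rintro x y ⟨hx, hx'⟩ ⟨hy, hy'⟩
          refine ⟨by rw [map_mul, hx, hy, mul_one], fun g hg => ?_⟩
          rw [aut_of_mem hg.1 hg.2.1, hx' g hg, hy' g hg] }
    have hCn : IsNormal C := by
      rintro γ hγ γ1 x ⟨hx, hx'⟩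
      refine ⟨normal_ker π γ hγ γ1 x hx, fun g hg => ?_⟩
      have : γ⁻¹ * g * γ ∈ Kg π := by
        refine ⟨mul_mem (mul_mem (inv_mem hγ) hg.1) hγ, ?_, fun y => ?_⟩
        · simp only [Perm.mul_apply]; rw [γ1, hg.2.1, inv_one γ1]
        · simp only [Perm.mul_apply]
          rw [congr_mem π (inv_mem hγ) (hg.2.2 (γ y))]; simp
      have h2 := congrArg γ (hx' _ this)
      simpa using h2
    rcases hM.2 C hCn (fun x hx => hx.1) with h' | h'
    · exfalso
      have : b ∈ C := ⟨hb, hfb⟩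
      rw [h'] at this
      exact hb1 this
    · have : a ∈ C := by rw [h']; exact ha
      exact this.2 k hk
  · left
    push Not at h
    obtain ⟨r, hr, hne, g, hg, hgr, hg1⟩ := h
    refine ⟨fixSub g (aut_of_mem hg.1 hg.2.1), fun e => hg1 ?_, fun y => ?_⟩
    · ext x
      have : x ∈ fixSub g (aut_of_mem hg.1 hg.2.1) := by rw [e]; trivial
      exact this
    · obtain ⟨z, hz, hgz⟩ := fix_single hr hgr (X := {z | π z = π y}) (fun x hx => by
        show π (g x) = π y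
        rw [hg.2.2]; exact hx) (by rw [card_fiber, hn]; exact not_dvd_pow hp hr hne)
      exact ⟨z, hgz, hz⟩

end affine

variable (F) in
/-- solvability -/
def Solv : Prop :=
  ∃ (n : ℕ) (S : ℕ → Submonoid F), S 0 = ⊥ ∧ S n = ⊤ ∧ ∀ i < n, ∀ x ∈ S (i + 1), ∀ y ∈ S (i + 1),
    ∀ z ∈ S (i + 1), (∃ m ∈ S i, (x * y) * z = (x * (y * z)) * m) ∧ ∃ m ∈ S i, x * y = (y * x) * m

theorem Solv.sub (h : Solv F) (X : Submonoid F) : Solv X := by
  obtain ⟨n, S, h0, hn, h⟩ := h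
  refine ⟨n, fun i => (S i).comap X.subtype, ?_, ?_, ?_⟩
  · beta_reduce; rw [h0]; ext x; simp
  · beta_reduce; rw [hn]; simp
  · intro i hi x hx y hy z hz
    obtain ⟨⟨m, hm, e1⟩, ⟨m', hm', e2⟩⟩ := h i hi x hx y hy z hz
    have a1 : m ∈ X := ldiv_mem (mul_mem x.2 (mul_mem y.2 z.2))
      (e1 ▸ mul_mem (mul_mem x.2 y.2) z.2)
    have a2 : m' ∈ X := ldiv_mem (mul_mem y.2 x.2) (e2 ▸ mul_mem x.2 y.2)
    exact ⟨⟨⟨m, a1⟩, hm, Subtype.ext e1⟩, ⟨⟨m', a2⟩, hm', Subtype.ext e2⟩⟩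

theorem Solv.quot (h : Solv F) {F₂ : Type} [ALoop F₂] [Finite F₂] (π : F →* F₂)
    (hs : Function.Surjective π) : Solv F₂ := by
  obtain ⟨n, S, h0, hn, h⟩ := h
  refine ⟨n, fun i => (S i).map π, ?_, ?_, ?_⟩
  · beta_reduce; rw [h0]; simp
  · beta_reduce; rw [hn, eq_top_iff]
    intro y _
    obtain ⟨x, rfl⟩ := hs y
    exact ⟨x, trivial, rfl⟩
  · rintro i hi _ ⟨x, hx, rfl⟩ _ ⟨y, hy, rfl⟩ _ ⟨z, hz, rfl⟩
    obtain ⟨⟨m, hm, e1⟩, ⟨m', hm', e2⟩⟩ := h i hi x hx y hy z hz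
    refine ⟨⟨π m, ⟨m, hm, rfl⟩, ?_⟩, ⟨π m', ⟨m', hm', rfl⟩, ?_⟩⟩
    · simp only [← map_mul]; rw [e1]
    · simp only [← map_mul]; rw [e2]

theorem exists_min_of_abelian {X : Submonoid F} (hX : IsNormal X) (hne : X ≠ ⊥) (hA : Asc X)
    (hC : Com X) : ∃ N : Submonoid F, ∃ p : ℕ, p.Prime ∧ N ≠ ⊥ ∧ MinNormal N ∧ Asc N ∧ Com N ∧
      ∀ a ∈ N, pw a p = 1 := by
  have hfin : Finite (Submonoid F) := Finite.of_injective _ SetLike.coe_injective
  obtain ⟨N, ⟨hN1, hN2, hN3⟩, hmin⟩ := (wellFounded_lt (α := Submonoid F)).has_min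
    {N | IsNormal N ∧ N ≠ ⊥ ∧ N ≤ X} ⟨X, hX, hne, le_rfl⟩
  have hM : MinNormal N := ⟨hN1, fun Y hY hle => by
    by_cases hb : Y = ⊥
    · exact Or.inl hb
    · right
      by_contra hc
      exact hmin Y ⟨hY, hb, hle.trans hN3⟩ (lt_of_le_of_ne hle hc)⟩
  have hA' : Asc N := fun a ha b hb c hc => hA _ (hN3 ha) _ (hN3 hb) _ (hN3 hc)
  have hC' : Com N := fun a ha b hb => hC _ (hN3 ha) _ (hN3 hb)
  obtain ⟨p, hp, a, ha, ha1, hap⟩ := exists_prime_elt hA' hN2
  refine ⟨N, p, hp, hN2, hM, hA', hC', ?_⟩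
  rcases hM.2 _ (tors_normal hA' hC' p hN1) (fun x hx => hx.1) with h | h
  · exfalso
    have : a ∈ tors N hA' hC' p := ⟨ha, hap⟩
    rw [h] at this
    exact ha1 this
  · intro b hb
    rw [← h] at hb
    exact hb.2

theorem Solv.exists_min (h : Solv F) [Nontrivial F] :
    ∃ N : Submonoid F, ∃ p : ℕ, p.Prime ∧ N ≠ ⊥ ∧ MinNormal N ∧ Asc N ∧ Com N ∧
      ∀ a ∈ N, pw a p = 1 := by
  classical
  obtain ⟨n, S, h0, hn, h⟩ := h
  let T : ℕ → Submonoid F := fun i =>
    { carrier := {x | ∀ g ∈ Mlt F, g 1 = 1 → g x ∈ S i}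
      one_mem' := fun g _ g1 => by rw [g1]; exact one_mem _
      mul_mem' := by
        intro a b ha hb g hg g1
        rw [aut_of_mem hg g1]
        exact mul_mem (ha g hg g1) (hb g hg g1) }
  have hT : ∀ i, IsNormal (T i) := by
    intro i γ hγ γ1 x hx g hg g1
    exact hx (g * γ) (mul_mem hg hγ) (by rw [Perm.mul_apply, γ1, g1])
  have hex : ∃ i, T i ≠ ⊥ := by
    refine ⟨n, fun e => ?_⟩
    obtain ⟨x, hx⟩ := exists_ne (1 : F)
    have : x ∈ T n := fun g _ _ => by rw [hn]; trivial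
    rw [e] at this
    exact hx this
  have hle : Nat.find hex ≤ n := Nat.find_min' hex (by
    intro e
    obtain ⟨x, hx⟩ := exists_ne (1 : F)
    have : x ∈ T n := fun g _ _ => by rw [hn]; trivial
    rw [e] at this
    exact hx this)
  have hspec := Nat.find_spec hex
  have h0' : Nat.find hex ≠ 0 := by
    intro e
    rw [e] at hspec
    apply hspec
    rw [Submonoid.eq_bot_iff_forall]
    intro x hx
    have := hx 1 (one_mem _) rfl
    rw [h0] at this
    exact this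
  obtain ⟨i, hi⟩ := Nat.exists_eq_succ_of_ne_zero h0'
  have hbot : T i = ⊥ := by
    by_contra hc
    have := Nat.find_min' hex hc
    omega
  rw [hi] at hspec hle
  refine exists_min_of_abelian (hT (i + 1)) hspec ?_ ?_
  · intro x hx y hy z hz
    have hm : (L (x * (y * z)))⁻¹ ((x * y) * z) ∈ T i := by
      intro g hg g1
      have haut := aut_of_mem hg g1
      obtain ⟨⟨m, hm, e⟩, -⟩ := h i (by omega) _ (hx g hg g1) _ (hy g hg g1) _ (hz g hg g1)
      have : g ((L (x * (y * z)))⁻¹ ((x * y) * z)) = m := by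
        apply lcan (a := g x * (g y * g z))
        rw [← e, ← haut, ← haut, ← haut, mul_Linv, haut, haut]
      rw [this]; exact hm
    rw [hbot] at hm
    have hm' : (L (x * (y * z)))⁻¹ ((x * y) * z) = 1 := hm
    rw [← mul_Linv (x * (y * z)) ((x * y) * z), hm', mul_one]
  · intro x hx y hy
    have hm : (L (y * x))⁻¹ (x * y) ∈ T i := by
      intro g hg g1
      have haut := aut_of_mem hg g1
      obtain ⟨-, ⟨m, hm, e⟩⟩ := h i (by omega) _ (hx g hg g1) _ (hy g hg g1) _ (hy g hg g1)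
      have : g ((L (y * x))⁻¹ (x * y)) = m := by
        apply lcan (a := g y * g x)
        rw [← e, ← haut, ← haut, mul_Linv, haut]
      rw [this]; exact hm
    rw [hbot] at hm
    have hm' : (L (y * x))⁻¹ (x * y) = 1 := hm
    rw [← mul_Linv (y * x) (x * y), hm', mul_one]

end Pool.Agent.H284Z
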