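import Mathlib

set_option autoImplicit false
set_option linter.style.haveILetI false
set_option linter.unusedSectionVars false
set_option linter.unusedVariables false

namespace Pool.Agent.H284Z

open Equiv

/-- automorphic loops -/
class ALoop (Q : Type) extends MulOneClass Q where
  bijL : ∀ a : Q, Function.Bijective (fun x => a * x)
  bijR : ∀ a : Q, Function.Bijective (fun x => x * a)
  autL : ∀ x y u v a b : Q, (x * y) * a = x * (y * u) → (x * y) * b = x * (y * v) →
    (x * y) * (a * b) = x * (y * (u * v))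
  autT : ∀ x u v a b : Q, a * x = x * u → b * x = x * v → (a * b) * x = x * (u * v)

variable {Q : Type} [ALoop Q]

theorem lcan {a x y : Q} (h : a * x = a * y) : x = y := (ALoop.bijL a).1 h
theorem rcan {a x y : Q} (h : x * a = y * a) : x = y := (ALoop.bijR a).1 h

noncomputable def L (a : Q) : Perm Q := Equiv.ofBijective _ (ALoop.bijL a)
noncomputable def R (a : Q) : Perm Q := Equiv.ofBijective _ (ALoop.bijR a)

@[simp] theorem L_apply (a x : Q) : L a x = a * x := rfl
@[simp] theorem R_apply (a x : Q) : R a x = x * a := rfl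
theorem mul_Linv (a x : Q) : a * (L a)⁻¹ x = x := (L a).apply_symm_apply x
theorem Linv_mul (a x : Q) : (L a)⁻¹ (a * x) = x := (L a).symm_apply_apply x
theorem Rinv_mul (a x : Q) : (R a)⁻¹ x * a = x := (R a).apply_symm_apply x
theorem Rinv_mul' (a x : Q) : (R a)⁻¹ (x * a) = x := (R a).symm_apply_apply x
theorem Linv_self (a : Q) : (L a)⁻¹ a = 1 := by
  have := Linv_mul a 1
  rwa [mul_one] at this
theorem Rinv_self (a : Q) : (R a)⁻¹ a = 1 := by
  have := Rinv_mul' a 1
  rwa [one_mul] at this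
@[simp] theorem mul_Lsymm (a x : Q) : a * (L a).symm x = x := mul_Linv a x
@[simp] theorem Lsymm_mul (a x : Q) : (L a).symm (a * x) = x := Linv_mul a x
@[simp] theorem Rsymm_mul (a x : Q) : (R a).symm x * a = x := Rinv_mul a x
@[simp] theorem Rsymm_mul' (a x : Q) : (R a).symm (x * a) = x := Rinv_mul' a x
@[simp] theorem Lsymm_self (a : Q) : (L a).symm a = 1 := Linv_self a
@[simp] theorem Rsymm_self (a : Q) : (R a).symm a = 1 := Rinv_self a

variable (Q) in
/-- the multiplication group -/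
def Mlt : Subgroup (Perm Q) := Subgroup.closure (Set.range L ∪ Set.range R)

theorem L_mem (a : Q) : L a ∈ Mlt Q := Subgroup.subset_closure (Or.inl ⟨a, rfl⟩)
theorem R_mem (a : Q) : R a ∈ Mlt Q := Subgroup.subset_closure (Or.inr ⟨a, rfl⟩)

variable (Q) in
/-- the automorphism group -/
def AutG : Subgroup (Perm Q) where
  carrier := {g | ∀ x y, g (x * y) = g x * g y}
  one_mem' := by intro x y; rfl
  mul_mem' := by
    intro g h hg hh x y
    simp only [Perm.mul_apply]
    rw [hh, hg]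
  inv_mem' := by
    intro g hg x y
    apply g.injective
    rw [hg]
    simp

theorem mem_AutG {g : Perm Q} : g ∈ AutG Q ↔ ∀ x y, g (x * y) = g x * g y := Iff.rfl

theorem aut_one {g : Perm Q} (hg : g ∈ AutG Q) : g 1 = 1 := by
  have := hg 1 1
  rw [mul_one] at this
  apply lcan (a := g 1)
  rw [← this, mul_one]

/-- left inner mapping -/
noncomputable def LL (x y : Q) : Perm Q := (L (x * y))⁻¹ * L x * L y

theorem LL_spec (x y z : Q) : (x * y) * LL x y z = x * (y * z) := by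
  simp [LL]

theorem LL_aut (x y : Q) : LL x y ∈ AutG Q := by
  intro u v
  apply lcan (a := x * y)
  rw [LL_spec]
  exact (ALoop.autL x y u v _ _ (LL_spec x y u) (LL_spec x y v)).symm

theorem LL_mem (x y : Q) : LL x y ∈ Mlt Q :=
  mul_mem (mul_mem (inv_mem (L_mem _)) (L_mem _)) (L_mem _)

/-- the inner mapping `t x` with `z * x = x * t x z` -/
noncomputable def tt (x : Q) : Perm Q := (L x)⁻¹ * R x

theorem tt_spec (x z : Q) : x * tt x z = z * x := by simp [tt]

theorem tt_aut (x : Q) : tt x ∈ AutG Q := by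
  intro u v
  apply lcan (a := x)
  rw [tt_spec]
  exact ALoop.autT x _ _ u v (tt_spec x u).symm (tt_spec x v).symm

theorem tt_mem (x : Q) : tt x ∈ Mlt Q := mul_mem (inv_mem (L_mem _)) (R_mem _)

theorem aut_L {g : Perm Q} (hg : g ∈ AutG Q) (x : Q) : g * L x = L (g x) * g := by
  ext y; simp [hg x y]

theorem aut_R {g : Perm Q} (hg : g ∈ AutG Q) (x : Q) : g * R x = R (g x) * g := by
  ext y; simp [hg y x]

theorem exists_decomp {g : Perm Q} (hg : g ∈ Mlt Q) :
    ∃ c : Q, ∃ γ ∈ AutG Q, g = L c * γ := by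
  induction hg using Subgroup.closure_induction with
  | mem g hg =>
    rcases hg with ⟨a, rfl⟩ | ⟨a, rfl⟩
    · exact ⟨a, 1, one_mem _, by simp⟩
    · exact ⟨a, tt a, tt_aut a, by simp [tt]⟩
  | one => exact ⟨1, 1, one_mem _, by ext; simp⟩
  | mul g h _ _ ihg ihh =>
    obtain ⟨c, γ, hγ, rfl⟩ := ihg
    obtain ⟨d, δ, hδ, rfl⟩ := ihh
    refine ⟨c * γ d, LL c (γ d) * γ * δ, mul_mem (mul_mem (LL_aut _ _) hγ) hδ, ?_⟩
    ext z
    simp only [Perm.mul_apply, L_apply]
    rw [LL_spec, hγ]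
  | inv g _ ih =>
    obtain ⟨c, γ, hγ, rfl⟩ := ih
    obtain ⟨c', hc'⟩ := (ALoop.bijL c).2 1
    have hc : c * c' = 1 := hc'
    refine ⟨γ⁻¹ c', γ⁻¹ * (LL c c')⁻¹, mul_mem (inv_mem hγ) (inv_mem (LL_aut _ _)), ?_⟩
    have h1 : LL c c' = L c * L c' := by
      ext z
      have := LL_spec c c' z
      rw [hc, one_mul] at this
      simpa using this
    rw [← mul_assoc, ← aut_L (inv_mem hγ), h1]
    group

theorem aut_of_mem {g : Perm Q} (hg : g ∈ Mlt Q) (h1 : g 1 = 1) : g ∈ AutG Q := by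
  obtain ⟨c, γ, hγ, rfl⟩ := exists_decomp hg
  have hc : c = 1 := by simpa [aut_one hγ] using h1
  subst hc
  have : L (1 : Q) * γ = γ := by ext; simp
  rwa [this]

theorem inv_one {g : Perm Q} (h1 : g 1 = 1) : g⁻¹ 1 = 1 := by
  apply g.injective; simp [h1]

theorem flex (y g : Q) : (y * g) * y = y * (g * y) := by
  have h1 : tt y y = y := by apply lcan (a := y); rw [tt_spec]
  have h2 := tt_aut y y g
  rw [h1] at h2
  rw [← tt_spec y (y * g), h2, tt_spec]

theorem LL_fix (y g : Q) : LL y g y = y := by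
  apply lcan (a := y * g)
  rw [LL_spec, flex]

/-- normal subloops -/
def IsNormal (N : Submonoid Q) : Prop := ∀ g ∈ Mlt Q, g 1 = 1 → ∀ n ∈ N, g n ∈ N

/-- left powers -/
def pw (x : Q) : ℕ → Q
  | 0 => 1
  | n + 1 => pw x n * x

theorem pw_mem {X : Submonoid Q} {x : Q} (hx : x ∈ X) : ∀ n, pw x n ∈ X
  | 0 => one_mem _
  | n + 1 => mul_mem (pw_mem hx n) hx

theorem aut_pw {g : Perm Q} (hg : g ∈ AutG Q) (x : Q) : ∀ n, g (pw x n) = pw (g x) n
  | 0 => aut_one hg
  | n + 1 => by simp only [pw]; rw [hg, aut_pw hg x n]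

theorem hom_pw {F : Type} [ALoop F] (π : Q →* F) (x : Q) : ∀ n, π (pw x n) = pw (π x) n
  | 0 => map_one π
  | n + 1 => by simp only [pw]; rw [map_mul, hom_pw π x n]

theorem lift_mem {F : Type} [ALoop F] (π : Q →* F) {g : Perm Q} (hg : g ∈ Mlt Q) :
    ∃ g' ∈ Mlt F, ∀ x, π (g x) = g' (π x) := by
  induction hg using Subgroup.closure_induction with
  | mem g hg =>
    rcases hg with ⟨a, rfl⟩ | ⟨a, rfl⟩
    · exact ⟨L (π a), L_mem _, by simp⟩
    · exact ⟨R (π a), R_mem _, by simp⟩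
  | one => exact ⟨1, one_mem _, by simp⟩
  | mul g h _ _ ihg ihh =>
    obtain ⟨g', hg', h1⟩ := ihg
    obtain ⟨h', hh', h2⟩ := ihh
    exact ⟨g' * h', mul_mem hg' hh', by simp [h1, h2]⟩
  | inv g _ ih =>
    obtain ⟨g', hg', h1⟩ := ih
    refine ⟨g'⁻¹, inv_mem hg', fun x => ?_⟩
    apply g'.injective
    rw [← h1]; simp

theorem congr_mem {F : Type} [ALoop F] (π : Q →* F) {g : Perm Q} (hg : g ∈ Mlt Q) {x y : Q}
    (h : π x = π y) : π (g x) = π (g y) := by
  obtain ⟨g', _, h1⟩ := lift_mem π hg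
  rw [h1, h1, h]

theorem normal_comap {F : Type} [ALoop F] (π : Q →* F) {E : Submonoid F} (hE : IsNormal E) :
    IsNormal (E.comap π) := by
  intro g hg h1 n hn
  obtain ⟨g', hg', h2⟩ := lift_mem π hg
  have h3 : g' 1 = 1 := by rw [← map_one π, ← h2, h1]
  show π (g n) ∈ E
  rw [h2]
  exact hE g' hg' h3 _ hn

theorem normal_ker {F : Type} [ALoop F] (π : Q →* F) : IsNormal (MonoidHom.mker π) := by
  intro g hg h1 n hn
  rw [MonoidHom.mem_mker] at hn ⊢
  rw [congr_mem π hg (y := 1) (by rw [hn, map_one]), h1, map_one]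

theorem exists_ker {F : Type} [ALoop F] (π : Q →* F) {x y : Q} (h : π y = π x) :
    ∃ n, π n = 1 ∧ y = x * n := by
  refine ⟨(L x)⁻¹ y, ?_, by simp⟩
  apply lcan (a := π x)
  rw [← map_mul, mul_Linv, mul_one, h]

section Finite

variable [Finite Q]

theorem ldiv_mem {X : Submonoid Q} {a c : Q} (ha : a ∈ X) (hb : a * c ∈ X) : c ∈ X := by
  let f : X → X := fun x => ⟨a * x, mul_mem ha x.2⟩
  have hf : Function.Injective f := fun x y h => Subtype.ext (lcan (congrArg Subtype.val h))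
  obtain ⟨x, hx⟩ := Finite.injective_iff_surjective.1 hf ⟨_, hb⟩
  have : (x : Q) = c := lcan (congrArg Subtype.val hx)
  exact this ▸ x.2

theorem rdiv_mem {X : Submonoid Q} {a c : Q} (ha : a ∈ X) (hb : c * a ∈ X) : c ∈ X := by
  let f : X → X := fun x => ⟨x * a, mul_mem x.2 ha⟩
  have hf : Function.Injective f := fun x y h => Subtype.ext (rcan (congrArg Subtype.val h))
  obtain ⟨x, hx⟩ := Finite.injective_iff_surjective.1 hf ⟨_, hb⟩
  have : (x : Q) = c := rcan (congrArg Subtype.val hx)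
  exact this ▸ x.2

instance subLoop (X : Submonoid Q) : ALoop X where
  bijL a := Finite.injective_iff_bijective.1
    (fun x y h => Subtype.ext (lcan (congrArg Subtype.val h)))
  bijR a := Finite.injective_iff_bijective.1
    (fun x y h => Subtype.ext (rcan (congrArg Subtype.val h)))
  autL x y u v a b h1 h2 := Subtype.ext
    (ALoop.autL (x : Q) y u v a b (congrArg Subtype.val h1) (congrArg Subtype.val h2))
  autT x u v a b h1 h2 := Subtype.ext
    (ALoop.autT (x : Q) u v a b (congrArg Subtype.val h1) (congrArg Subtype.val h2))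

/-- the congruence of a normal subloop -/
def con (N : Submonoid Q) (hN : IsNormal N) : Con Q where
  r x y := ∃ n ∈ N, y = x * n
  iseqv := by
    refine ⟨fun x => ⟨1, one_mem _, by simp⟩, ?_, ?_⟩
    · rintro x y ⟨n, hn, rfl⟩
      obtain ⟨n', hn'⟩ := (ALoop.bijL n).2 1
      have h1 : n * n' = 1 := hn'
      have h2 : n' ∈ N := ldiv_mem hn (h1 ▸ one_mem _)
      refine ⟨LL x n n', hN _ (LL_mem _ _) (aut_one (LL_aut _ _)) _ h2, ?_⟩
      rw [LL_spec, h1, mul_one]
    · rintro x y z ⟨n, hn, rfl⟩ ⟨m, hm, rfl⟩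
      have h2 : (LL x n)⁻¹ m ∈ N :=
        hN _ (inv_mem (LL_mem _ _)) (inv_one (aut_one (LL_aut _ _))) _ hm
      refine ⟨n * (LL x n)⁻¹ m, mul_mem hn h2, ?_⟩
      rw [← LL_spec]; simp
  mul' := by
    rintro x _ y _ ⟨n, hn, rfl⟩ ⟨m, hm, rfl⟩
    have hg : (L (x * y))⁻¹ * R y * L x ∈ Mlt Q :=
      mul_mem (mul_mem (inv_mem (L_mem _)) (R_mem _)) (L_mem _)
    have h1 := hN _ hg (by simp) n hn
    have h2 := hN _ (LL_mem (x * n) y) (aut_one (LL_aut _ _)) m hm
    set a := ((L (x * y))⁻¹ * R y * L x) n with ha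
    have h3 : (x * y) * a = (x * n) * y := by simp [ha]
    have h4 : (LL (x * y) a)⁻¹ (LL (x * n) y m) ∈ N :=
      hN _ (inv_mem (LL_mem _ _)) (inv_one (aut_one (LL_aut _ _))) _ h2
    refine ⟨a * (LL (x * y) a)⁻¹ (LL (x * n) y m), mul_mem h1 h4, ?_⟩
    rw [← LL_spec (x * y) a, h3, ← LL_spec (x * n) y m]
    simp

theorem exists_quot (N : Submonoid Q) (hN : IsNormal N) :
    ∃ (F : Type) (_ : ALoop F) (π : Q →* F), Function.Surjective π ∧ MonoidHom.mker π = N := by
  let c := con N hN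
  have hs : Function.Surjective (c.mk') := Con.mk'_surjective
  haveI : Finite c.Quotient := Finite.of_surjective _ hs
  have hL : ∀ a : c.Quotient, Function.Bijective (fun x => a * x) := by
    intro a
    refine Finite.surjective_iff_bijective.1 (fun b => ?_)
    obtain ⟨a, rfl⟩ := hs a
    obtain ⟨b, rfl⟩ := hs b
    exact ⟨c.mk' ((L a)⁻¹ b), by show _ * _ = _; rw [← map_mul, mul_Linv]⟩
  have hR : ∀ a : c.Quotient, Function.Bijective (fun x => x * a) := by
    intro a
    refine Finite.surjective_iff_bijective.1 (fun b => ?_)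
    obtain ⟨a, rfl⟩ := hs a
    obtain ⟨b, rfl⟩ := hs b
    exact ⟨c.mk' ((R a)⁻¹ b), by show _ * _ = _; rw [← map_mul, Rinv_mul]⟩
  let inst : ALoop c.Quotient :=
    { bijL := hL
      bijR := hR
      autL := by
        intro x y u v a b h1 h2
        obtain ⟨x, rfl⟩ := hs x
        obtain ⟨y, rfl⟩ := hs y
        obtain ⟨u, rfl⟩ := hs u
        obtain ⟨v, rfl⟩ := hs v
        have e1 : a = c.mk' (LL x y u) := (hL (c.mk' x * c.mk' y)).1 (by
          show _ * _ = _ * _
          rw [h1, ← map_mul, ← map_mul, ← map_mul, ← map_mul, LL_spec])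
        have e2 : b = c.mk' (LL x y v) := (hL (c.mk' x * c.mk' y)).1 (by
          show _ * _ = _ * _
          rw [h2, ← map_mul, ← map_mul, ← map_mul, ← map_mul, LL_spec])
        rw [e1, e2]
        simp only [← map_mul]
        rw [← LL_aut x y u v, LL_spec]
      autT := by
        intro x u v a b h1 h2
        obtain ⟨x, rfl⟩ := hs x
        obtain ⟨a, rfl⟩ := hs a
        obtain ⟨b, rfl⟩ := hs b
        have e1 : u = c.mk' (tt x a) := (hL (c.mk' x)).1 (by
          show _ * _ = _ * _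
          rw [← h1, ← map_mul, ← map_mul, tt_spec])
        have e2 : v = c.mk' (tt x b) := (hL (c.mk' x)).1 (by
          show _ * _ = _ * _
          rw [← h2, ← map_mul, ← map_mul, tt_spec])
        rw [e1, e2]
        simp only [← map_mul]
        rw [← tt_aut x a b, tt_spec] }
  refine ⟨c.Quotient, inst, c.mk', hs, ?_⟩
  ext x
  rw [MonoidHom.mem_mker, ← map_one c.mk', Con.coe_mk', eq_comm, Con.eq]
  constructor
  · rintro ⟨n, hn, rfl⟩; simpa using hn
  · intro hx; exact ⟨x, hx, by simp⟩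

theorem card_comap {F : Type} [ALoop F] (π : Q →* F) (hs : Function.Surjective π)
    (H : Submonoid F) :
    Nat.card (H.comap π) = Nat.card H * Nat.card (MonoidHom.mker π) := by
  rw [← Nat.card_prod]
  symm
  let σ := Function.surjInv hs
  have hσ : ∀ y, π (σ y) = y := Function.surjInv_eq hs
  refine Nat.card_congr (Equiv.ofBijective
    (fun p : H × MonoidHom.mker π => (⟨σ p.1 * p.2, ?_⟩ : H.comap π)) ⟨?_, ?_⟩)
  · show π (σ p.1 * p.2) ∈ H
    rw [map_mul, hσ, p.2.2, mul_one]; exact p.1.2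
  · rintro ⟨h, n⟩ ⟨h', n'⟩ e
    have e1 : σ h * n = σ h' * n' := congrArg Subtype.val e
    have e2 : (h : F) = h' := by
      have := congrArg π e1
      rwa [map_mul, map_mul, hσ, hσ, n.2, n'.2, mul_one, mul_one] at this
    have e3 : h = h' := Subtype.ext e2
    subst e3
    rw [Subtype.ext (lcan e1)]
  · rintro ⟨x, hx⟩
    obtain ⟨n, hn, e⟩ := exists_ker π (x := σ (π x)) (y := x) (by rw [hσ])
    exact ⟨(⟨π x, hx⟩, ⟨n, hn⟩), Subtype.ext e.symm⟩

theorem card_fiber {F : Type} [ALoop F] (π : Q →* F) (y : Q) :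
    Nat.card {z | π z = π y} = Nat.card (MonoidHom.mker π) := by
  symm
  refine Nat.card_congr (Equiv.ofBijective
    (fun n : MonoidHom.mker π => (⟨y * n, ?_⟩ : {z | π z = π y})) ⟨?_, ?_⟩)
  · show π (y * n) = π y
    rw [map_mul, n.2, mul_one]
  · intro n n' e
    exact Subtype.ext (lcan (congrArg Subtype.val e))
  · rintro ⟨z, hz⟩
    obtain ⟨n, hn, e⟩ := exists_ker π (x := y) (y := z) hz
    exact ⟨⟨n, hn⟩, Subtype.ext e.symm⟩

/-- associativity on a subloop -/
def Asc (X : Submonoid Q) : Prop := ∀ a ∈ X, ∀ b ∈ X, ∀ c ∈ X, (a * b) * c = a * (b * c)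

/-- commutativity on a subloop -/
def Com (X : Submonoid Q) : Prop := ∀ a ∈ X, ∀ b ∈ X, a * b = b * a

/-- an associative subloop is a group -/
@[reducible] noncomputable def grp (X : Submonoid Q) (h : Asc X) : Group X :=
  { (inferInstance : MulOneClass X) with
    mul_assoc := fun a b c => Subtype.ext (h _ a.2 _ b.2 _ c.2)
    inv := fun a => (R a)⁻¹ 1
    inv_mul_cancel := fun a => Rinv_mul a 1 }

theorem grp_pow (X : Submonoid Q) (h : Asc X) (a : X) (n : ℕ) :
    letI := grp X h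
    ((a ^ n : X) : Q) = pw (a : Q) n := by
  letI := grp X h
  induction n with
  | zero => rw [pow_zero]; rfl
  | succ n ih => rw [pow_succ]; simp only [pw]; rw [← ih]; rfl

theorem card_pow {X : Submonoid Q} (h : Asc X) {p : ℕ} (hp : p.Prime)
    (he : ∀ a ∈ X, pw a p = 1) : ∃ k, Nat.card X = p ^ k := by
  letI := grp X h
  haveI := Fact.mk hp
  have : IsPGroup p X := fun a => ⟨1, Subtype.ext (by rw [pow_one, grp_pow]; exact he _ a.2)⟩
  exact IsPGroup.iff_card.1 this

theorem eq_one_of_coprime {X : Submonoid Q} (h : Asc X) {p q : ℕ} (hpq : p.Coprime q) {a : Q}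
    (ha : a ∈ X) (h1 : pw a p = 1) (h2 : pw a q = 1) : a = 1 := by
  letI := grp X h
  have e1 : (⟨a, ha⟩ : X) ^ p = 1 := Subtype.ext (by rw [grp_pow]; exact h1)
  have e2 : (⟨a, ha⟩ : X) ^ q = 1 := Subtype.ext (by rw [grp_pow]; exact h2)
  have := (pow_eq_one_iff_of_coprime hpq).1 ⟨e1, e2⟩
  exact congrArg Subtype.val this

theorem pw_mul_pw {X : Submonoid Q} (h : Asc X) (hc : Com X) {a b : Q} (ha : a ∈ X) (hb : b ∈ X) :
    ∀ n, pw (a * b) n = pw a n * pw b n
  | 0 => by simp [pw]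
  | n + 1 => by
    simp only [pw]
    have h1 := pw_mem ha n
    have h2 := pw_mem hb n
    rw [pw_mul_pw h hc ha hb n, h _ h1 _ h2 _ (mul_mem ha hb), h _ h1 _ ha _ (mul_mem h2 hb),
      ← h _ h2 _ ha _ hb, ← h _ ha _ h2 _ hb, hc _ h2 _ ha]

theorem pw_pw_comm {X : Submonoid Q} (h : Asc X) {a : Q} (ha : a ∈ X) (m n : ℕ) :
    pw (pw a m) n = pw (pw a n) m := by
  letI := grp X h
  have e1 := grp_pow X h ⟨a, ha⟩ m
  have e2 := grp_pow X h ⟨a, ha⟩ n
  have e3 := grp_pow X h (⟨a, ha⟩ ^ m) n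
  have e4 := grp_pow X h (⟨a, ha⟩ ^ n) m
  rw [e1] at e3
  rw [e2] at e4
  rw [← e3, ← e4, ← pow_mul, ← pow_mul, mul_comm]

theorem exists_prime_elt {X : Submonoid Q} (h : Asc X) (hX : X ≠ ⊥) :
    ∃ p : ℕ, p.Prime ∧ ∃ a ∈ X, a ≠ 1 ∧ pw a p = 1 := by
  letI := grp X h
  have hn : Nontrivial X := (Submonoid.nontrivial_iff_exists_ne_one X).2
    (by
      by_contra hcon
      apply hX
      rw [Submonoid.eq_bot_iff_forall]
      intro x hx
      by_contra h1
      exact hcon ⟨x, hx, h1⟩)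
  have h1 : Nat.card X ≠ 1 := (Finite.one_lt_card_iff_nontrivial.2 hn).ne'
  obtain ⟨p, hp, hd⟩ := Nat.exists_prime_and_dvd h1
  haveI := Fact.mk hp
  obtain ⟨a, ha⟩ := exists_prime_orderOf_dvd_card' p hd
  refine ⟨p, hp, a, a.2, fun e => ?_, ?_⟩
  · have : a = 1 := Subtype.ext e
    rw [this, orderOf_one] at ha
    exact hp.one_lt.ne ha
  · rw [← grp_pow X h, ← ha, pow_orderOf_eq_one]; rfl

/-- elements of exponent `p` in an abelian normal subloop -/
def tors (X : Submonoid Q) (h : Asc X) (hc : Com X) (p : ℕ) : Submonoid Q where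
  carrier := {a | a ∈ X ∧ pw a p = 1}
  one_mem' := ⟨one_mem _, by
    induction p with
    | zero => rfl
    | succ n ih => simp only [pw]; rw [ih, one_mul]⟩
  mul_mem' := by
    rintro a b ⟨ha, ha'⟩ ⟨hb, hb'⟩
    exact ⟨mul_mem ha hb, by rw [pw_mul_pw h hc ha hb, ha', hb', one_mul]⟩

theorem tors_normal {X : Submonoid Q} (h : Asc X) (hc : Com X) (p : ℕ) (hX : IsNormal X) :
    IsNormal (tors X h hc p) := by
  rintro g hg h1 a ⟨ha, ha'⟩
  exact ⟨hX g hg h1 a ha, by rw [← aut_pw (aut_of_mem hg h1), ha', h1]⟩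

end Finite

end Pool.Agent.H284Z
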