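import Pool.Agent.H284Z.DitorDefs

set_option autoImplicit false
set_option linter.unusedVariables false
set_option linter.style.haveILetI false
set_option linter.deprecated false

namespace Pool.Agent.H284Z.Ditor

open Cardinal Set

variable {L : Type} [SemilatticeSup L]

theorem three (h : BreadthLE L 2) (a b c : L) : a ≤ b ⊔ c ∨ b ≤ a ⊔ c ∨ c ≤ a ⊔ b := by
  classical
  obtain ⟨Y, hY, hsub, hc, e⟩ := h {a, b, c} (by simp)
  have ha : a ≤ Y.sup' hY id := e ▸ Finset.le_sup' id (by simp)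
  have hb : b ≤ Y.sup' hY id := e ▸ Finset.le_sup' id (by simp)
  have hc' : c ≤ Y.sup' hY id := e ▸ Finset.le_sup' id (by simp)
  by_cases h1 : a ∈ Y
  · by_cases h2 : b ∈ Y
    · by_cases h3 : c ∈ Y
      · by_cases e1 : a = b
        · left; rw [e1]; exact le_sup_left
        by_cases e2 : a = c
        · left; rw [e2]; exact le_sup_right
        by_cases e3 : b = c
        · right; left; rw [e3]; exact le_sup_right
        exfalso
        have : ({a, b, c} : Finset L) ⊆ Y := by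
          intro x hx
          simp only [Finset.mem_insert, Finset.mem_singleton] at hx
          rcases hx with rfl | rfl | rfl <;> assumption
        have h4 := Finset.card_le_card this
        rw [Finset.card_eq_three.2 ⟨a, b, c, e1, e2, e3, rfl⟩] at h4
        omega
      · right; right
        refine hc'.trans (Finset.sup'_le _ _ (fun x hx => ?_))
        have := hsub hx
        simp only [Finset.mem_insert, Finset.mem_singleton] at this
        rcases this with rfl | rfl | rfl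
        · exact le_sup_left
        · exact le_sup_right
        · exact absurd hx h3
    · right; left
      refine hb.trans (Finset.sup'_le _ _ (fun x hx => ?_))
      have := hsub hx
      simp only [Finset.mem_insert, Finset.mem_singleton] at this
      rcases this with rfl | rfl | rfl
      · exact le_sup_left
      · exact absurd hx h2
      · exact le_sup_right
  · left
    refine ha.trans (Finset.sup'_le _ _ (fun x hx => ?_))
    have := hsub hx
    simp only [Finset.mem_insert, Finset.mem_singleton] at this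
    rcases this with rfl | rfl | rfl
    · exact absurd hx h1
    · exact le_sup_left
    · exact le_sup_right

theorem exists_ideal {κ : Cardinal.{0}} (hκ : ℵ₀ ≤ κ) (hL : κ < #L) (hs : ∀ a : L, #(Iic a) < κ)
    (T : Set L) (hT : #T ≤ κ) : ∃ J : Set L, T ⊆ J ∧ #J = κ ∧ (∀ a ∈ J, ∀ b ≤ a, b ∈ J) ∧
      ∀ a ∈ J, ∀ b ∈ J, a ⊔ b ∈ J := by
  classical
  obtain ⟨T0, hT0⟩ := Cardinal.le_mk_iff_exists_set.1 hL.le
  let T' := T ∪ T0
  have h1 : #T' = κ := le_antisymm ((mk_union_le _ _).trans (by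
    rw [hT0]; exact add_le_of_le hκ hT le_rfl)) (hT0 ▸ mk_le_mk_of_subset subset_union_right)
  haveI : Infinite T' := by rw [Cardinal.infinite_iff, h1]; exact hκ
  let J : Set L := ⋃ F : {F : Finset T' // F.Nonempty}, Iic (F.1.sup' F.2 (fun x => (x : L)))
  have h2 : T' ⊆ J := fun x hx =>
    mem_iUnion.2 ⟨⟨{⟨x, hx⟩}, Finset.singleton_nonempty _⟩, by simp⟩
  refine ⟨J, subset_union_left.trans h2, le_antisymm ?_ (h1 ▸ mk_le_mk_of_subset h2), ?_, ?_⟩
  · refine (mk_iUnion_le_sum_mk).trans ((sum_le_sum _ (fun _ => κ) (fun F => (hs _).le)).trans ?_)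
    rw [sum_const']
    have : #{F : Finset T' // F.Nonempty} ≤ κ :=
      (mk_subtype_le _).trans (by rw [mk_finset_of_infinite, h1])
    exact (mul_le_mul' this le_rfl).trans (mul_eq_self hκ).le
  · intro a ha b hb
    obtain ⟨F, hF⟩ := mem_iUnion.1 ha
    exact mem_iUnion.2 ⟨F, hb.trans hF⟩
  · intro a ha b hb
    obtain ⟨F, hF⟩ := mem_iUnion.1 ha
    obtain ⟨G, hG⟩ := mem_iUnion.1 hb
    refine mem_iUnion.2 ⟨⟨F.1 ∪ G.1, F.2.mono Finset.subset_union_left⟩, ?_⟩
    show a ⊔ b ≤ _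
    rw [Finset.sup'_union F.2 G.2]
    exact sup_le_sup hF hG

theorem key (h : BreadthLE L 2) {κ : Cardinal.{0}} (hκ : ℵ₀ < κ) (hc : κ.ord.cof = ℵ₀)
    (hL : κ < #L) (hs : ∀ a : L, #(Iic a) < κ) (T : Set L) (hT : #T ≤ κ) :
    ∃ b : ℕ → L, Monotone b ∧ (∀ t ∈ T, ∃ n, t ≤ b n) ∧ ∀ a, ∃ n, ∀ t ∈ T, t ≤ a → t ≤ b n := by
  obtain ⟨J, hTJ, hJ, hlow, hsup⟩ := exists_ideal hκ.le hL hs T hT
  obtain ⟨x, hx⟩ : ∃ x, x ∉ J := by
    by_contra hcon
    push Not at hcon
    have : J = Set.univ := eq_univ_of_forall hcon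
    rw [this, mk_univ] at hJ
    exact hL.ne' hJ
  have chain : ∀ y ∈ J, ∀ z ∈ J, y ≤ x ⊔ z ∨ z ≤ x ⊔ y := fun y hy z hz => by
    rcases three h x y z with h1 | h1
    · exact absurd (hlow _ (hsup y hy z hz) x h1) hx
    · exact h1
  have hlim : ∀ ν < κ, Order.succ ν < κ := by
    intro ν hν
    refine lt_of_le_of_ne (Order.succ_le_of_lt hν) (fun e => ?_)
    have hν0 : ℵ₀ ≤ ν := by
      rw [← e] at hκ; exact Order.lt_succ_iff.1 hκ
    have := (isRegular_succ hν0).cof_ord
    rw [e, hc] at this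
    exact hκ.ne this
  have big : ∀ ν < κ, ∃ y ∈ J, ν < #(Iic (x ⊔ y)) := by
    intro ν0 hν0
    by_contra hcon
    push Not at hcon
    let ν := max ν0 ℵ₀
    have hν : ν < κ := max_lt hν0 hκ
    have hνi : ℵ₀ ≤ Order.succ ν := (le_max_right _ _).trans (Order.le_succ ν)
    obtain ⟨Z, hZJ, hZ⟩ := Cardinal.le_mk_iff_exists_subset.1 (hJ ▸ (hlim ν hν).le)
    have h1 : #(⋃ y : Z, Iic (x ⊔ y.1)) ≤ Order.succ ν := by
      refine (mk_iUnion_le_sum_mk).trans ((sum_le_sum _ (fun _ => Order.succ ν) (fun y : Z =>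
        (hcon y.1 (hZJ y.2)).trans ((le_max_left _ _).trans (Order.le_succ ν)))).trans ?_)
      rw [sum_const', hZ, mul_eq_self hνi]
    obtain ⟨z, hzJ, hz⟩ : ∃ z ∈ J, z ∉ ⋃ y : Z, Iic (x ⊔ y.1) := by
      by_contra hcon2
      push Not at hcon2
      have := (mk_le_mk_of_subset hcon2).trans h1
      rw [hJ] at this
      exact (hlim ν hν).not_ge this
    have h2 : Z ⊆ Iic (x ⊔ z) := fun y hy => by
      rcases chain y (hZJ hy) z hzJ with h3 | h3
      · exact h3
      · exact absurd (mem_iUnion.2 ⟨⟨y, hy⟩, h3⟩) hz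
    have h3 := (mk_le_mk_of_subset h2).trans (hcon z hzJ)
    rw [hZ] at h3
    exact (Order.lt_succ ν).not_ge (h3.trans (le_max_left _ _))
  obtain ⟨k, hk1, hk2⟩ : ∃ k : ℕ → Cardinal.{0}, (∀ n, k n < κ) ∧ ∀ ν < κ, ∃ n, ν ≤ k n := by
    obtain ⟨s, hs1, hs2⟩ := Order.exists_cof_eq κ.ord.ToType
    rw [Ordinal.cof_toType, hc] at hs2
    haveI : Countable s := by rw [← Cardinal.mk_le_aleph0_iff, hs2]
    haveI : Nonempty s := by rw [← Cardinal.mk_ne_zero_iff, hs2]; exact aleph0_ne_zero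
    obtain ⟨f, hf⟩ := exists_surjective_nat s
    refine ⟨fun n => (Ordinal.typein (α := κ.ord.ToType) (· < ·) (f n).1).card, fun n => ?_,
      fun ν hν => ?_⟩
    · rw [← Cardinal.lt_ord]
      exact Ordinal.typein_lt_self _
    · have h1 : ν.ord < Ordinal.type (α := κ.ord.ToType) (· < ·) := by
        rw [Ordinal.type_toType]; exact Cardinal.ord_lt_ord.2 hν
      obtain ⟨i, hi⟩ := Ordinal.typein_surj _ h1
      obtain ⟨j, hj, hij⟩ := hs1 i
      obtain ⟨n, hn⟩ := hf ⟨j, hj⟩
      refine ⟨n, ?_⟩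
      have h2 : Ordinal.typein (α := κ.ord.ToType) (· < ·) i ≤
          Ordinal.typein (α := κ.ord.ToType) (· < ·) j := by
        rw [Ordinal.typein_le_typein]; exact not_lt.2 hij
      have := Ordinal.card_le_card h2
      rw [hi, card_ord] at this
      simp only [hn]
      exact this
  choose y hyJ hy using fun n => big (k n) (hk1 n)
  let w : ℕ → L := fun n => partialSups y n
  have hwJ : ∀ n, w n ∈ J := by
    intro n
    induction n with
    | zero => simpa [w] using hyJ 0
    | succ n ih =>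
      show partialSups y (n + 1) ∈ J
      rw [partialSups_add_one]
      exact hsup _ ih _ (hyJ _)
  have hcov : ∀ t ∈ J, ∃ n, t ≤ x ⊔ w n := by
    intro t ht
    obtain ⟨n, hn⟩ := hk2 _ (hs (x ⊔ t))
    refine ⟨n, ?_⟩
    rcases chain t ht (y n) (hyJ n) with h1 | h1
    · exact h1.trans (sup_le_sup_left (le_partialSups y n) x)
    · exfalso
      have : Iic (x ⊔ y n) ⊆ Iic (x ⊔ t) := Iic_subset_Iic.2 (sup_le le_sup_left h1)
      exact (hy n).not_ge ((mk_le_mk_of_subset this).trans hn)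
  refine ⟨fun n => x ⊔ w n, fun m n hmn => sup_le_sup_left ((partialSups y).monotone hmn) x,
    fun t ht => hcov t (hTJ ht), fun a => ?_⟩
  by_contra hcon
  push Not at hcon
  have h1 : J ⊆ Iic (x ⊔ a) := by
    intro t ht
    obtain ⟨n, hn⟩ := hcov t ht
    obtain ⟨s, hsT, hsa, hsn⟩ := hcon n
    rcases chain s (hTJ hsT) (w n) (hwJ n) with h2 | h2
    · exact absurd h2 hsn
    · exact hn.trans (sup_le le_sup_left (h2.trans (sup_le_sup_left hsa x)))
  have := mk_le_mk_of_subset h1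
  rw [hJ] at this
  exact (hs _).not_ge this

theorem main (hP : PID) (h : BreadthLE L 2) {κ : Cardinal.{0}} (hκ : ℵ₀ < κ)
    (hc : κ.ord.cof = ℵ₀) (hL : κ < #L) : ∃ a : L, κ ≤ #(Iic a) := by
  by_contra hcon
  push Not at hcon
  let I : Set (Set L) := {A | A.Countable ∧ ∀ a, (A ∩ Iic a).Finite}
  have hI : IsPIdeal I := by
    refine ⟨fun A hA => hA.1, fun A hA => ⟨hA.countable, fun a => hA.inter_of_left _⟩,
      fun A hA B hB => ⟨hA.1.mono hB, fun a => (hA.2 a).subset (inter_subset_inter_left _ hB)⟩,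
      fun A hA B hB => ⟨hA.1.union hB.1, fun a => by
        rw [union_inter_distrib_right]; exact (hA.2 a).union (hB.2 a)⟩, fun f hf => ?_⟩
    have hT : (⋃ n, f n).Countable := countable_iUnion (fun n => (hf n).1)
    obtain ⟨b, hb, -, h2⟩ := key h hκ hc hL hcon (⋃ n, f n)
      ((le_aleph0_iff_set_countable.2 hT).trans hκ.le)
    refine ⟨⋃ n, f n \ Iic (b n), ⟨hT.mono (iUnion_mono (fun n => diff_subset)), fun a => ?_⟩,
      fun n => ((hf n).2 (b n)).subset ?_⟩
    · obtain ⟨n, hn⟩ := h2 a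
      refine ((finite_lt_nat n).biUnion (fun k _ => (hf k).2 a)).subset ?_
      rintro t ⟨ht, hta⟩
      obtain ⟨k, hk1, hk2⟩ := mem_iUnion.1 ht
      refine mem_biUnion (x := k) ?_ ⟨hk1, hta⟩
      by_contra hkn
      exact hk2 ((hn t (mem_iUnion.2 ⟨k, hk1⟩) hta).trans (hb (not_lt.1 hkn)))
    · rintro t ⟨ht, ht2⟩
      refine ⟨ht, ?_⟩
      by_contra hcon2
      exact ht2 (mem_iUnion.2 ⟨n, ht, hcon2⟩)
  rcases hP L I hI with ⟨X, hX, hXI⟩ | ⟨Y, hY, hYI⟩
  · have hfin : ∀ a, (X ∩ Iic a).Finite := by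
      intro a
      by_contra hinf
      obtain ⟨A, hA, hAc, hAi⟩ : ∃ A ⊆ X ∩ Iic a, A.Countable ∧ A.Infinite := by
        let e := Set.Infinite.natEmbedding _ hinf
        refine ⟨range (fun n => (e n : L)), ?_, countable_range _, infinite_range_of_injective
          (Subtype.val_injective.comp e.injective)⟩
        rintro _ ⟨n, rfl⟩
        exact (e n).2
      have := (hXI A (hA.trans inter_subset_left) hAc).2 a
      rw [inter_eq_left.2 (hA.trans inter_subset_right)] at this
      exact hAi this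
    have h1 : ℵ₁ ≤ #X := by
      rw [← not_lt, ← countable_iff_lt_aleph_one]; exact hX
    obtain ⟨T, hTX, hT⟩ := Cardinal.le_mk_iff_exists_subset.1 h1
    have h2 : ℵ₁ ≤ κ := by rw [← succ_aleph0]; exact Order.succ_le_of_lt hκ
    obtain ⟨b, -, h3, -⟩ := key h hκ hc hL hcon T (hT ▸ h2)
    have h4 : T.Countable := (countable_iUnion (fun n => (hfin (b n)).countable)).mono
      (fun t ht => by
        obtain ⟨n, hn⟩ := h3 t ht
        exact mem_iUnion.2 ⟨n, hTX ht, hn⟩)
    rw [countable_iff_lt_aleph_one, hT] at h4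
    exact lt_irrefl _ h4
  · obtain ⟨m, hm⟩ : ∃ m, κ ≤ #(Y m) := by
      by_contra hcon2
      push Not at hcon2
      have h1 : #(⋃ n, Y n) ≤ κ := by
        refine (mk_iUnion_le_sum_mk).trans ((sum_le_sum _ (fun _ => κ)
          (fun n => (hcon2 n).le)).trans ?_)
        rw [sum_const', mk_nat]
        exact (mul_le_mul' hκ.le le_rfl).trans (mul_eq_self hκ.le).le
      rw [hY, mk_univ] at h1
      exact hL.not_ge h1
    obtain ⟨T, hTY, hT⟩ := Cardinal.le_mk_iff_exists_subset.1 hm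
    obtain ⟨b, hb, h1, h2⟩ := key h hκ hc hL hcon T hT.le
    have h3 : ∀ n, ∃ t ∈ T, ¬ t ≤ b n := by
      intro n
      by_contra hcon2
      push Not at hcon2
      have := mk_le_mk_of_subset (s := T) (t := Iic (b n)) hcon2
      rw [hT] at this
      exact (hcon _).not_ge this
    choose t htT ht using h3
    have hA : range t ∈ I := by
      refine ⟨countable_range t, fun a => ?_⟩
      obtain ⟨n, hn⟩ := h2 a
      refine ((finite_lt_nat n).image t).subset ?_
      rintro _ ⟨⟨k, rfl⟩, hka⟩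
      refine ⟨k, ?_, rfl⟩
      by_contra hkn
      exact ht k ((hn _ (htT k) hka).trans (hb (not_lt.1 hkn)))
    have h4 := hYI m _ hA
    rw [inter_eq_left.2 (by rintro _ ⟨k, rfl⟩; exact hTY (htT k))] at h4
    choose! g hg using h1
    obtain ⟨N, hN⟩ := (h4.image g).bddAbove
    exact ht N ((hg _ (htT N)).trans (hb (hN ⟨t N, ⟨N, rfl⟩, rfl⟩)))

end Pool.Agent.H284Z.Ditor
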