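import Mathlib

set_option autoImplicit false

namespace Pool.Agent.H284Z.Ditor

/-- `I` is a P-ideal of countable subsets of `S` containing all finite sets. -/
def IsPIdeal {S : Type} (I : Set (Set S)) : Prop :=
  (∀ A ∈ I, A.Countable) ∧ (∀ A : Set S, A.Finite → A ∈ I) ∧ (∀ A ∈ I, ∀ B ⊆ A, B ∈ I) ∧
    (∀ A ∈ I, ∀ B ∈ I, A ∪ B ∈ I) ∧
    ∀ f : ℕ → Set S, (∀ n, f n ∈ I) → ∃ A ∈ I, ∀ n, (f n \ A).Finite

/-- The P-ideal dichotomy of Abraham and Todorcevic. -/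
def PID : Prop :=
  ∀ (S : Type) (I : Set (Set S)), IsPIdeal I →
    (∃ X : Set S, ¬ X.Countable ∧ ∀ A ⊆ X, A.Countable → A ∈ I) ∨
      ∃ Y : ℕ → Set S, (⋃ n, Y n) = Set.univ ∧ ∀ n, ∀ A ∈ I, (A ∩ Y n).Finite

/-- The join-semilattice `L` has breadth at most `n`. -/
def BreadthLE (L : Type) [SemilatticeSup L] (n : ℕ) : Prop :=
  ∀ (X : Finset L) (hX : X.Nonempty), ∃ (Y : Finset L) (hY : Y.Nonempty),
    Y ⊆ X ∧ Y.card ≤ n ∧ Y.sup' hY id = X.sup' hX id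

end Pool.Agent.H284Z.Ditor
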