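import Pool.Agent.H284Z.Split

set_option autoImplicit false
set_option linter.style.haveILetI false
set_option linter.unusedSectionVars false
set_option linter.unusedVariables false

namespace Pool.Agent.H284Z

open Equiv

/-- existence of a Hall subloop -/
def HasHall (Q : Type) [ALoop Q] (S : Set ℕ) : Prop :=
  ∃ (H : Submonoid Q) (k : ℕ), Nat.card H * k = Nat.card Q ∧
    (∀ p : ℕ, p.Prime → p ∣ Nat.card H → p ∈ S) ∧ ∀ p : ℕ, p.Prime → p ∣ k → p ∉ S

variable {Q : Type} [ALoop Q] [Finite Q]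

theorem HasHall.of_sub {S : Set ℕ} (X : Submonoid Q) (k : ℕ) (hk : Nat.card X * k = Nat.card Q)
    (hS : ∀ p : ℕ, p.Prime → p ∣ k → p ∉ S) (h : HasHall X S) : HasHall Q S := by
  obtain ⟨H, j, h1, h2, h3⟩ := h
  have e : Nat.card (H.map X.subtype) = Nat.card H :=
    (Nat.card_congr (Submonoid.equivMapOfInjective H X.subtype Subtype.val_injective).toEquiv).symm
  refine ⟨H.map X.subtype, j * k, by rw [e, ← mul_assoc, h1, hk], by rw [e]; exact h2, ?_⟩
  intro p hp hd
  rcases (Nat.Prime.dvd_mul hp).1 hd with h | h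
  · exact h3 p hp h
  · exact hS p hp h

theorem card_eq_mul {F : Type} [ALoop F] (π : Q →* F) (hs : Function.Surjective π) :
    Nat.card Q = Nat.card F * Nat.card (MonoidHom.mker π) := by
  have := card_comap π hs ⊤
  rwa [Submonoid.comap_top, Nat.card_congr Submonoid.topEquiv.toEquiv,
    Nat.card_congr Submonoid.topEquiv.toEquiv] at this

theorem HasHall.of_quot {F : Type} [ALoop F] {S : Set ℕ} (π : Q →* F) (hs : Function.Surjective π)
    (hS : ∀ p : ℕ, p.Prime → p ∣ Nat.card (MonoidHom.mker π) → p ∈ S) (h : HasHall F S) :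
    HasHall Q S := by
  obtain ⟨H, j, h1, h2, h3⟩ := h
  refine ⟨H.comap π, j, ?_, ?_, h3⟩
  · rw [card_comap π hs, card_eq_mul π hs, ← h1]; ring
  · intro p hp hd
    rw [card_comap π hs] at hd
    rcases (Nat.Prime.dvd_mul hp).1 hd with h | h
    · exact h2 p hp h
    · exact hS p hp h

theorem card_lt_of_ne_top {X : Submonoid Q} (h : X ≠ ⊤) : Nat.card X < Nat.card Q := by
  obtain ⟨x, hx⟩ : ∃ x, x ∉ X := by
    by_contra hc
    push Not at hc
    exact h (eq_top_iff.2 (fun x _ => hc x))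
  exact Finite.card_subtype_lt hx

theorem card_quot_lt {F : Type} [ALoop F] (π : Q →* F) (hs : Function.Surjective π)
    (h : MonoidHom.mker π ≠ ⊥) : Nat.card F < Nat.card Q := by
  haveI : Finite F := Finite.of_surjective _ hs
  have hn : Nontrivial (MonoidHom.mker π) := (Submonoid.nontrivial_iff_exists_ne_one _).2
    (by
      by_contra hcon
      apply h
      rw [Submonoid.eq_bot_iff_forall]
      intro x hx
      by_contra h1
      exact hcon ⟨x, hx, h1⟩)
  have h1 : 1 < Nat.card (MonoidHom.mker π) := Finite.one_lt_card_iff_nontrivial.2 hn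
  have h2 : 0 < Nat.card F := Nat.card_pos
  rw [card_eq_mul π hs]
  nlinarith

theorem cover_index {F : Type} [ALoop F] (π : Q →* F) (hs : Function.Surjective π)
    (hA : Asc (MonoidHom.mker π)) {p : ℕ} (hp : p.Prime)
    (he : ∀ a ∈ MonoidHom.mker π, pw a p = 1) (U : Submonoid Q)
    (hU : ∀ y, ∃ u ∈ U, π u = π y) : ∃ j, Nat.card U * p ^ j = Nat.card Q := by
  have hs' : Function.Surjective (π.comp U.subtype) := by
    intro y
    obtain ⟨y, rfl⟩ := hs y
    obtain ⟨u, hu, e⟩ := hU y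
    exact ⟨⟨u, hu⟩, e⟩
  obtain ⟨k, hk⟩ := card_pow hA hp he
  obtain ⟨j, hj⟩ := card_pow (X := MonoidHom.mker (π.comp U.subtype))
    (fun a ha b hb c hc => Subtype.ext (hA _ ha _ hb _ hc)) hp
    (fun a ha => Subtype.ext (by
      have := hom_pw U.subtype a p
      exact this.trans (he _ ha)))
  have hle : p ^ j ≤ p ^ k := by
    rw [← hj, ← hk]
    exact Nat.card_le_card_of_injective
      (fun a : MonoidHom.mker (π.comp U.subtype) => (⟨a.1.1, a.2⟩ : MonoidHom.mker π))
      (fun a b h => Subtype.ext (Subtype.ext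
        (congrArg (fun x : MonoidHom.mker π => (x : Q)) h)))
  obtain ⟨i, rfl⟩ := Nat.exists_eq_add_of_le ((Nat.pow_le_pow_iff_right hp.one_lt).1 hle)
  refine ⟨i, ?_⟩
  rw [card_eq_mul π hs, card_eq_mul _ hs', hk, hj]; ring

theorem hall_aux (S : Set ℕ) (n : ℕ) : ∀ (Q : Type) [ALoop Q] [Finite Q], Nat.card Q = n →
    Solv Q → HasHall Q S := by
  induction n using Nat.strong_induction_on with
  | _ n ih =>
  intro Q _ _ hn hQ
  have quo : ∀ (X : Submonoid Q) (r : ℕ), r.Prime → r ∈ S → IsNormal X → X ≠ ⊥ → Asc X →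
      (∀ a ∈ X, pw a r = 1) → HasHall Q S := by
    intro X r hr hrS hX hne hA he
    obtain ⟨F, _, π, hs, rfl⟩ := exists_quot X hX
    haveI : Finite F := Finite.of_surjective _ hs
    obtain ⟨k, hk⟩ := card_pow hA hr he
    refine HasHall.of_quot π hs (fun p hp hd => ?_)
      (ih _ (hn ▸ card_quot_lt π hs hne) F rfl (hQ.quot π hs))
    rw [hk] at hd
    rwa [(Nat.prime_dvd_prime_iff_eq hp hr).1 (hp.dvd_of_dvd_pow hd)]
  have sub : ∀ (X : Submonoid Q) (k : ℕ), X ≠ ⊤ → Nat.card X * k = Nat.card Q →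
      (∀ p : ℕ, p.Prime → p ∣ k → p ∉ S) → HasHall Q S := fun X k hX hk hS =>
    HasHall.of_sub X k hk hS (ih _ (hn ▸ card_lt_of_ne_top hX) X rfl (hQ.sub X))
  have triv : (∀ p : ℕ, p.Prime → p ∣ Nat.card Q → p ∉ S) → HasHall Q S := fun h =>
    ⟨⊥, Nat.card Q, by simp, fun p hp hd => by simp [hp.one_lt.ne'] at hd, h⟩
  rcases subsingleton_or_nontrivial Q with h0 | h0
  · exact triv (fun p hp hd => by simp [Nat.card_unique, hp.one_lt.ne'] at hd)
  obtain ⟨N, p, hp, hne, hM, hA, hC, he⟩ := hQ.exists_min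
  by_cases hpS : p ∈ S
  · exact quo N p hp hpS hM.1 hne hA he
  obtain ⟨F, _, π, hs, rfl⟩ := exists_quot N hM.1
  haveI : Finite F := Finite.of_surjective _ hs
  have hF := hQ.quot π hs
  obtain ⟨k, hk⟩ := card_pow hA hp he
  have hpow : ∀ j r : ℕ, r.Prime → r ∣ p ^ j → r ∉ S := fun j r hr hd => by
    rwa [(Nat.prime_dvd_prime_iff_eq hr hp).1 (hr.dvd_of_dvd_pow hd)]
  have cov : (∃ U : Submonoid Q, U ≠ ⊤ ∧ ∀ y, ∃ u ∈ U, π u = π y) → HasHall Q S := by
    rintro ⟨U, hU, hU2⟩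
    obtain ⟨j, hj⟩ := cover_index π hs hA hp he U hU2
    exact sub U _ hU hj (hpow j)
  obtain ⟨H, j, h1, h2, h3⟩ := ih _ (hn ▸ card_quot_lt π hs hne) F rfl hF
  by_cases hH : H.comap π ≠ ⊤
  · refine sub _ j hH ?_ h3
    rw [card_comap π hs, card_eq_mul π hs, ← h1]; ring
  push Not at hH
  have hH' : H = ⊤ := by
    rw [eq_top_iff]
    intro y _
    obtain ⟨x, rfl⟩ := hs y
    have : x ∈ H.comap π := by rw [hH]; trivial
    exact this
  rw [hH', Nat.card_congr Submonoid.topEquiv.toEquiv] at h2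
  rcases subsingleton_or_nontrivial F with f0 | f0
  · refine triv (fun r hr hd => ?_)
    rw [card_eq_mul π hs, hk, Nat.card_unique, one_mul] at hd
    exact hpow k r hr hd
  obtain ⟨E, q, hq, hEne, hEM, hEA, hEC, hEe⟩ := hF.exists_min
  obtain ⟨F₂, _, σ, hσ, rfl⟩ := exists_quot E hEM.1
  obtain ⟨e, heE, he1⟩ : ∃ e ∈ MonoidHom.mker σ, e ≠ 1 := by
    by_contra hcon
    apply hEne
    rw [Submonoid.eq_bot_iff_forall]
    intro x hx
    by_contra h1
    exact hcon ⟨x, hx, h1⟩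
  have hqS : q ∈ S := h2 q hq (by
    rw [card_eq_mul σ hσ]
    exact Dvd.dvd.mul_left (dvd_card_of_ne_bot hEA hq hEe heE he1) _)
  have hpq : p ≠ q := fun h => hpS (h ▸ hqS)
  rcases first_reduction π hM hA hp he with h | hK
  · exact cov h
  have c : Ctx π σ p q := ⟨hp, hq, hpq, hA, hC, he, hK, hEC, hEe,
    affine σ hEM hEA hEC hq hEe⟩
  let C : Submonoid Q :=
    { carrier := {a | π a = 1 ∧ ∀ m, σ (π m) = 1 → m * a = a * m}
      one_mem' := ⟨map_one _, fun m _ => by simp⟩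
      mul_mem' := by
        rintro a b ⟨ha, ha'⟩ ⟨hb, hb'⟩
        refine ⟨by rw [map_mul, ha, hb, mul_one], fun m hm => ?_⟩
        have e1 : tt m a = a := lcan ((tt_spec m a).trans (ha' m hm).symm)
        have e2 : tt m b = b := lcan ((tt_spec m b).trans (hb' m hm).symm)
        rw [← tt_spec m (a * b), tt_aut, e1, e2] }
  have hCn : IsNormal C := by
    rintro γ hγ γ1 a ⟨ha, ha'⟩
    refine ⟨N_normal π hγ γ1 ha, fun m hm => ?_⟩
    have := congrArg γ (ha' _ (M_normal π σ (inv_mem hγ) (inv_one γ1) hm))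
    rw [aut_of_mem hγ γ1, aut_of_mem hγ γ1] at this
    simpa using this
  rcases hM.2 C hCn (fun x hx => hx.1) with h | h
  · refine cov (c.split hne (fun a ha ha' => ?_))
    have : a ∈ C := ⟨ha, ha'⟩
    rw [h] at this
    exact this
  · obtain ⟨hMA, hMC⟩ := c.case_central (fun m a hm ha => by
      have : a ∈ C := by rw [h]; exact ha
      exact this.2 m hm)
    obtain ⟨m, rfl⟩ := hs e
    have hm : m ∈ MonoidHom.mker (σ.comp π) := heE
    refine quo (tors _ hMA hMC q) q hq hqS (tors_normal hMA hMC q (normal_ker _)) (fun hb => ?_)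
      (fun a ha b hb c hc => hMA _ ha.1 _ hb.1 _ hc.1) (fun a ha => ha.2)
    have h4 : pw m p ∈ tors _ hMA hMC q := by
      refine ⟨pw_mem hm p, ?_⟩
      rw [pw_pw_comm hMA hm]
      exact he _ (by rw [MonoidHom.mem_mker, hom_pw]; exact hEe _ heE)
    rw [hb] at h4
    have h5 : pw m p = 1 := h4
    have h6 : pw (π m) p = 1 := by rw [← hom_pw, h5, map_one]
    exact he1 (eq_one_of_coprime hEA ((Nat.coprime_primes hp hq).2 hpq) heE h6 (hEe _ heE))

theorem hall (S : Set ℕ) (hQ : Solv Q) : HasHall Q S := hall_aux S _ Q rfl hQ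

end Pool.Agent.H284Z
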