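import Pool.Agent.H284Z.Wgroup

set_option autoImplicit false
set_option linter.style.haveILetI false
set_option linter.unusedSectionVars false
set_option linter.unusedVariables false

namespace Pool.Agent.H284Z

open Equiv

variable {Q F F₂ : Type} [ALoop Q] [ALoop F] [ALoop F₂] [Finite Q] [Finite F]

/-- the inner mapping with `(x * z) * y = (x * y) * Phi x y z` -/
noncomputable def Phi (x y : Q) : Perm Q := (L (x * y))⁻¹ * R y * L x

theorem Phi_spec (x y z : Q) : (x * y) * Phi x y z = (x * z) * y := by simp [Phi]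
theorem Phi_mem (x y : Q) : Phi x y ∈ Mlt Q :=
  mul_mem (mul_mem (inv_mem (L_mem _)) (R_mem _)) (L_mem _)
theorem Phi_one (x y : Q) : Phi x y 1 = 1 := by simp [Phi]
theorem tt_one (x : Q) : tt x 1 = 1 := aut_one (tt_aut x)
theorem LL_one (x y : Q) : LL x y 1 = 1 := aut_one (LL_aut x y)
theorem tt_self (x : Q) : tt x x = x := by apply lcan (a := x); rw [tt_spec]
theorem ttinv_spec (x z : Q) : (tt x)⁻¹ z * x = x * z := by
  rw [← tt_spec]; simp

theorem aut_Phi {g : Perm Q} (hg : g ∈ AutG Q) (x y z : Q) :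
    g (Phi x y z) = Phi (g x) (g y) (g z) := by
  apply lcan (a := g x * g y)
  rw [Phi_spec, ← hg, ← hg, Phi_spec, hg, hg]

theorem comm_ident {A : Type} [CommGroup A] (X Y G Lb b : A) :
    Lb * b⁻¹ = (X * G) * G⁻¹ * (Y * Lb) * (X * Y * b)⁻¹ := by
  apply Additive.ofMul.injective
  simp only [ofMul_mul, ofMul_inv]
  abel

/-- data of a normalised Sylow subgroup -/
structure PData (π : Q →* F) (σ : F →* F₂) (P : Subgroup (Perm Q)) : Prop where
  h1 : P ≤ Wg π σ
  h2 : ∀ w ∈ Wg π σ, ∃ x ∈ P, ∃ v ∈ Vg π, w = x * v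
  h3 : ∀ g ∈ Mlt Q, ∃ h ∈ Mlt Q, h ∈ Subgroup.normalizer (P : Set (Perm Q)) ∧
    ∃ v ∈ Vg π, g = h * v
  h4 : ∀ x ∈ P, π (x 1) = 1 → x 1 = 1
  h5 : ∀ a, π a = 1 → (∀ m, σ (π m) = 1 → m * a = a * m) → a = 1

/-- the transversal -/
def Uset (π : Q →* F) (P : Subgroup (Perm Q)) : Set Q := {u | ∀ x ∈ P, π (x u) = π u → x u = u}

namespace Ctx

variable {π : Q →* F} {σ : F →* F₂} {p q : ℕ} (c : Ctx π σ p q)
include c

theorem exists_PData (h5 : ∀ a, π a = 1 → (∀ m, σ (π m) = 1 → m * a = a * m) → a = 1) :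
    ∃ P, PData π σ P := by
  obtain ⟨P, h1, hP, h2, h3⟩ := frattini_pack (Mlt Q) (Wg π σ) (Vg π) (fun w hw => hw.1)
    (V_le_W π σ) (fun g hg w hw => c.W_conj hg hw) (fun g hg w hw => V_conj π hg hw) c.hq
    (fun w hw => c.W_pow hw)
  let P1 : Subgroup (Perm Q) :=
    { carrier := {x | x ∈ P ∧ π (x 1) = 1}
      one_mem' := ⟨one_mem _, map_one π⟩
      mul_mem' := by
        rintro x y ⟨hx, hx1⟩ ⟨hy, hy1⟩
        refine ⟨mul_mem hx hy, ?_⟩
        rw [Perm.mul_apply, congr_mem π (h1 hx).1 (y := 1) (by rw [hy1, map_one]), hx1]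
      inv_mem' := by
        rintro x ⟨hx, hx1⟩
        refine ⟨inv_mem hx, ?_⟩
        have := congr_mem π (inv_mem (h1 hx).1) (x := x 1) (y := 1) (by rw [hx1, map_one])
        rw [← this]; simp }
  have hP1 : IsPGroup q P1 := hP.to_le (fun x hx => hx.1)
  obtain ⟨k, hk⟩ := card_pow c.nA c.hp c.nE
  obtain ⟨a, ha, hfa⟩ := fix_of_not_dvd c.hq hP1 (X := (MonoidHom.mker π : Set Q))
    (fun g hg x hx => by
      show π (g x) = 1
      rw [congr_mem π (h1 hg.1).1 (y := 1) (by rw [map_one]; exact hx), hg.2])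
    (by
      have : Nat.card (MonoidHom.mker π : Set Q) = p ^ k := hk
      rw [this]; exact not_dvd_pow c.hp c.hq c.hpq.symm)
  have ha' : π a = 1 := ha
  have hRV : R a ∈ Vg π := ⟨R_mem _, fun y => by simp [ha']⟩
  have hRM := R_mem a
  refine ⟨P.comap (MulAut.conj (R a)).toMonoidHom, ?_, ?_, ?_, ?_, h5⟩
  · intro x hx
    have h6 : R a * x * (R a)⁻¹ ∈ P := hx
    have := c.W_conj (inv_mem hRM) (h1 h6)
    simpa [mul_assoc] using this
  · intro w hw
    obtain ⟨x, hx, v, hv, e⟩ := h2 _ (c.W_conj hRM hw)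
    refine ⟨(R a)⁻¹ * x * R a, ?_, (R a)⁻¹ * v * (R a)⁻¹⁻¹, V_conj π (inv_mem hRM) hv, ?_⟩
    · show R a * ((R a)⁻¹ * x * R a) * (R a)⁻¹ ∈ P
      simpa [mul_assoc] using hx
    · have : w = (R a)⁻¹ * (x * v) * R a := by rw [← e]; group
      rw [this]; group
  · intro g hg
    obtain ⟨h, hh, hn, v, hv, e⟩ := h3 (R a * g * (R a)⁻¹)
      (mul_mem (mul_mem hRM hg) (inv_mem hRM))
    refine ⟨(R a)⁻¹ * h * R a, mul_mem (mul_mem (inv_mem hRM) hh) hRM, ?_,
      (R a)⁻¹ * v * (R a)⁻¹⁻¹, V_conj π (inv_mem hRM) hv, ?_⟩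
    · rw [Subgroup.mem_normalizer_iff] at hn ⊢
      intro x
      show R a * x * (R a)⁻¹ ∈ P ↔
        R a * ((R a)⁻¹ * h * R a * x * ((R a)⁻¹ * h * R a)⁻¹) * (R a)⁻¹ ∈ P
      rw [hn]
      have : h * (R a * x * (R a)⁻¹) * h⁻¹ =
        R a * ((R a)⁻¹ * h * R a * x * ((R a)⁻¹ * h * R a)⁻¹) * (R a)⁻¹ := by group
      rw [this]
    · have : g = (R a)⁻¹ * (h * v) * R a := by rw [← e]; group
      rw [this]; group
  · intro x hx hx1
    have h6 : R a * x * (R a)⁻¹ ∈ P := hx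
    have hxm : x ∈ Mlt Q := by
      have := mul_mem (mul_mem (inv_mem hRM) (h1 h6).1) hRM
      simpa [mul_assoc] using this
    have h7 : R a * x * (R a)⁻¹ ∈ P1 := by
      refine ⟨h6, ?_⟩
      simp only [Perm.mul_apply]
      rw [hRV.2, congr_mem π hxm ((inv_mem hRV).2 1), hx1]
    have h8 := hfa _ h7
    simp only [Perm.mul_apply, Rinv_self, R_apply] at h8
    apply rcan (a := a)
    rw [h8, one_mul]

variable {P : Subgroup (Perm Q)} (d : PData π σ P)
include d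

theorem U_one : (1 : Q) ∈ Uset π P := fun x hx h => d.h4 x hx (by rw [h, map_one])

theorem U_inv {h : Perm Q} (hm : h ∈ Mlt Q) (hn : h ∈ Subgroup.normalizer (P : Set (Perm Q)))
    {u : Q} (hu : u ∈ Uset π P) : h u ∈ Uset π P := by
  intro x hx e
  have h1 : h⁻¹ * x * h ∈ P := by
    rw [Subgroup.mem_normalizer_iff] at hn
    rw [hn]; simpa [mul_assoc] using hx
  have h2 := hu _ h1 (by
    simp only [Perm.mul_apply]
    rw [congr_mem π (inv_mem hm) e]; simp)
  have := congrArg h h2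
  simpa using this

theorem U_ker {a : Q} (hu : a ∈ Uset π P) (ha : π a = 1) : a = 1 := by
  apply d.h5 a ha
  intro m hm
  obtain ⟨x, hx, v, hv, e⟩ := d.h2 _ (c.tt_W hm)
  have hxm := (d.h1 hx).1
  have e1 : x (v 1) = 1 := by rw [← Perm.mul_apply, ← e, tt_one]
  have x1 : x 1 = 1 := d.h4 x hx (by
    rw [← congr_mem π hxm (hv.2 1), e1, map_one])
  have v1 : v 1 = 1 := x.injective (by rw [e1, x1])
  have e2 : v a = a := c.hK v ⟨hv.1, v1, hv.2⟩ a ha
  have e3 : x a = a := hu x hx (by rw [N_normal π hxm x1 ha, ha])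
  rw [← tt_spec m a, e, Perm.mul_apply, e2, e3]

theorem decomp {g : Perm Q} (hg : g ∈ Mlt Q) (h1 : g 1 ∈ Uset π P) :
    ∃ h ∈ Mlt Q, h ∈ Subgroup.normalizer (P : Set (Perm Q)) ∧ ∃ k ∈ Kg π, g = h * k := by
  obtain ⟨h, hh, hn, v, hv, e⟩ := d.h3 g hg
  refine ⟨h, hh, hn, v, ⟨hv.1, ?_, hv.2⟩, e⟩
  have := c.U_inv d (inv_mem hh) (inv_mem hn) h1
  have e2 : h⁻¹ (g 1) = v 1 := by rw [e]; simp
  rw [e2] at this
  exact c.U_ker d this (by rw [hv.2, map_one])

theorem U_uniq {u u' : Q} (hu : u ∈ Uset π P) (hu' : u' ∈ Uset π P) (e : π u' = π u) :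
    u' = u := by
  obtain ⟨h, hh, hn, k, hk, e1⟩ := c.decomp d (L_mem u) (by simpa using hu)
  obtain ⟨a, ha, rfl⟩ := exists_ker π e
  have := c.U_inv d (inv_mem hh) (inv_mem hn) hu'
  have e2 : h⁻¹ (u * a) = a := by
    rw [← L_apply, e1, Perm.mul_apply, c.hK k hk a ha]; simp
  rw [e2] at this
  rw [c.U_ker d this ha, mul_one]

theorem U_ex (y : Q) : ∃ u ∈ Uset π P, π u = π y := by
  obtain ⟨h, hh, hn, v, hv, e⟩ := d.h3 _ (L_mem y)
  refine ⟨h 1, c.U_inv d hh hn (c.U_one d), ?_⟩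
  rw [← congr_mem π hh (hv.2 1), ← Perm.mul_apply, ← e]; simp

theorem V_eq_one {v : Perm Q} (hv : v ∈ Vg π) (h : ∀ u ∈ Uset π P, v u = u) : v = 1 := by
  ext y
  obtain ⟨u, hu, e⟩ := c.U_ex d y
  obtain ⟨a, ha, rfl⟩ := exists_ker π e.symm
  rw [c.V_trans hv u ha, h u hu]; rfl

theorem HV {v : Perm Q} (hv : v ∈ Vg π) (hn : v ∈ Subgroup.normalizer (P : Set (Perm Q))) :
    v = 1 :=
  c.V_eq_one d hv (fun u hu => c.U_uniq d hu (c.U_inv d hv.1 hn hu) (hv.2 u))

theorem S_fix {m : Q} (hm : σ (π m) = 1) (hu : m ∈ Uset π P) {x : Perm Q} (hx : x ∈ P)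
    (x1 : x 1 = 1) : x m = m := hu x hx (c.W_fixM (d.h1 hx) x1 hm)

theorem S_of_fix {m : Q} (hm : σ (π m) = 1) (h : ∀ x ∈ P, x 1 = 1 → x m = m) :
    m ∈ Uset π P := by
  intro x hx e
  apply h x hx (d.h4 x hx ?_)
  have := (d.h1 hx).2.2 1 m hm
  rw [one_mul, e] at this
  apply rcan (a := π m)
  rw [← this, one_mul]

theorem S_mul {s s' : Q} (hs : σ (π s) = 1) (hu : s ∈ Uset π P) (hs' : σ (π s') = 1)
    (hu' : s' ∈ Uset π P) : s * s' ∈ Uset π P :=
  c.S_of_fix d (by rw [map_mul, map_mul, hs, hs', mul_one]) (fun x hx x1 => by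
    rw [aut_of_mem (d.h1 hx).1 x1, c.S_fix d hs hu hx x1, c.S_fix d hs' hu' hx x1])

theorem K_triv0 {k : Perm Q} (hk : k ∈ Kg π) (h1 : ∀ s, σ (π s) = 1 → s ∈ Uset π P → k s = s)
    (h2 : ∀ x ∈ P, x 1 = 1 → x * k = k * x) : k = 1 := by
  have key : ∀ g ∈ P, g * k = k * g := by
    intro g hg
    have hgW := d.h1 hg
    have hs : σ (π (g 1)) = 1 := by rw [hgW.2.1, map_one, map_one]
    have hu : g 1 ∈ Uset π P := c.U_inv d hgW.1 (Subgroup.le_normalizer hg) (c.U_one d)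
    obtain ⟨h, hh, hn, k', hk', e⟩ := c.decomp d (R_mem (g 1)) (by simpa using hu)
    have e1 : k * R (g 1) = R (g 1) * k := by
      rw [aut_R (aut_of_mem hk.1 hk.2.1), h1 _ hs hu]
    have e2 : k * k' = k' * k := c.V_comm (K_le_V π hk) (K_le_V π hk')
    have eh : h = R (g 1) * k'⁻¹ := by rw [e]; group
    have e3 : k * h = h * k := by
      have : k * k'⁻¹ = k'⁻¹ * k := by
        rw [eq_inv_mul_iff_mul_eq, ← mul_assoc, ← e2]; group
      rw [eh, ← mul_assoc, e1, mul_assoc, this, mul_assoc]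
    have hW : h ∈ Wg π σ := by
      rw [eh]; exact mul_mem (c.R_W hs) (inv_mem (V_le_W π σ (K_le_V π hk')))
    obtain ⟨x, hx, v, hv, e4⟩ := d.h2 _ (mul_mem (inv_mem hW) hgW)
    have hv1 : v = 1 := c.HV d hv (by
      have : v = x⁻¹ * (h⁻¹ * g) := by rw [e4]; group
      rw [this]
      exact mul_mem (inv_mem (Subgroup.le_normalizer hx))
        (mul_mem (inv_mem hn) (Subgroup.le_normalizer hg)))
    rw [hv1, mul_one] at e4
    have x1 : x 1 = 1 := by
      rw [← e4, Perm.mul_apply]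
      apply h.injective
      rw [eh]
      simp [hk'.2.1]
    have e5 : g = h * x := by rw [← e4]; group
    rw [e5, mul_assoc, h2 x hx x1, ← mul_assoc, ← e3, mul_assoc]
  apply c.HV d (K_le_V π hk)
  rw [Subgroup.mem_normalizer_iff]
  intro x
  constructor
  · intro hx
    rw [← key x hx]; simpa using hx
  · intro hx
    have := key _ hx
    have e : x = k * x * k⁻¹ := by
      have h3 : k * x = k * (k * x * k⁻¹) := by rw [← this]; group
      exact mul_left_cancel h3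
    rw [e]; exact hx

theorem mem_H {g : Perm Q} (hg : g ∈ Mlt Q) (h0 : g 1 ∈ Uset π P)
    (h1 : ∀ s, σ (π s) = 1 → s ∈ Uset π P → g s ∈ Uset π P)
    (h2 : ∀ x ∈ P, x 1 = 1 → x * g = g * x) : g ∈ Subgroup.normalizer (P : Set (Perm Q)) := by
  obtain ⟨h, hh, hn, k, hk, e⟩ := c.decomp d hg h0
  have hk1 : k = 1 := by
    refine c.K_triv0 d hk (fun s hs hu => ?_) (fun x hx x1 => ?_)
    · have := c.U_inv d (inv_mem hh) (inv_mem hn) (h1 s hs hu)
      have e2 : h⁻¹ (g s) = k s := by rw [e]; simp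
      rw [e2] at this
      exact c.U_uniq d hu this (hk.2.2 s)
    · have e1 := h2 x hx x1
      rw [e] at e1
      have hv : k * (x * k * x⁻¹)⁻¹ ∈ Vg π :=
        mul_mem (K_le_V π hk) (inv_mem (V_conj π (d.h1 hx).1 (K_le_V π hk)))
      have e2 : k * (x * k * x⁻¹)⁻¹ = h⁻¹ * x * h * x⁻¹ := by
        have : k = h⁻¹ * (x * (h * k)) * x⁻¹ := by rw [e1]; group
        calc k * (x * k * x⁻¹)⁻¹ = (h⁻¹ * (x * (h * k)) * x⁻¹) * (x * k * x⁻¹)⁻¹ := by rw [← this]
          _ = h⁻¹ * x * h * x⁻¹ := by group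
      have hxn := Subgroup.le_normalizer hx
      have e3 := c.HV d hv (by
        rw [e2]; exact mul_mem (mul_mem (mul_mem (inv_mem hn) hxn) hn) (inv_mem hxn))
      have e4 : k = x * k * x⁻¹ := mul_inv_eq_one.1 e3
      calc x * k = (x * k * x⁻¹) * x := by group
        _ = k * x := by rw [← e4]
  rw [e, hk1, mul_one]; exact hn

theorem U_mulS {s u : Q} (hs : σ (π s) = 1) (hsu : s ∈ Uset π P) (hu : u ∈ Uset π P) :
    u * s ∈ Uset π P :=
  c.U_inv d (R_mem s) (c.mem_H d (R_mem s) (by simpa using hsu)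
    (fun s' hs' hu' => c.S_mul d hs' hu' hs hsu) (fun x hx x1 => by
      rw [aut_R (aut_of_mem (d.h1 hx).1 x1), c.S_fix d hs hsu hx x1])) hu

theorem S_mulU {s u : Q} (hs : σ (π s) = 1) (hsu : s ∈ Uset π P) (hu : u ∈ Uset π P) :
    s * u ∈ Uset π P :=
  c.U_inv d (L_mem s) (c.mem_H d (L_mem s) (by simpa using hsu)
    (fun s' hs' hu' => c.S_mul d hs hsu hs' hu') (fun x hx x1 => by
      rw [aut_L (aut_of_mem (d.h1 hx).1 x1), c.S_fix d hs hsu hx x1])) hu

omit d in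
theorem LL_W {s : Q} (hs : σ (π s) = 1) (w : Q) : LL s w ∈ Wg π σ := by
  refine W_of_aut π σ (LL_mem _ _) (LL_one _ _) (fun y => ?_) (fun m hm => ?_)
  · have := congrArg (fun x => σ (π x)) (LL_spec s w y)
    simp only [map_mul, hs, one_mul] at this
    exact lcan this
  · apply lcan (a := π (s * w))
    rw [← map_mul, LL_spec]
    exact (c.L_W hs).2.2 w m hm

omit d in
theorem Phi_W {s : Q} (hs : σ (π s) = 1) (w : Q) : Phi w s ∈ Wg π σ := by
  refine W_of_aut π σ (Phi_mem _ _) (Phi_one _ _) (fun y => ?_) (fun m hm => ?_)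
  · have := congrArg (fun x => σ (π x)) (Phi_spec w s y)
    simp only [map_mul, hs, mul_one] at this
    exact lcan this
  · apply lcan (a := π (w * s))
    rw [← map_mul, Phi_spec]
    exact (c.R_W hs).2.2 w m hm

omit d in
theorem tw_of {γ : Perm Q} (hγ : γ ∈ Mlt Q) (γ1 : γ 1 = 1) (w : Q)
    (h1 : ∀ z, σ (π (γ z)) = σ (π (tt w z))) (h2 : ∀ m, σ (π m) = 1 → π (γ m) = π (tt w m)) :
    γ * (tt w)⁻¹ ∈ Wg π σ := by
  refine W_of_aut π σ (mul_mem hγ (inv_mem (tt_mem _)))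
    (by rw [Perm.mul_apply, inv_one (tt_one w), γ1]) (fun y => ?_) (fun m hm => ?_)
  · rw [Perm.mul_apply, h1]; simp
  · rw [Perm.mul_apply, h2 _ (M_normal π σ (inv_mem (tt_mem w)) (inv_one (tt_one w)) hm)]; simp

omit d in
theorem twist {γ α : Perm Q} (γ1 : γ 1 = 1) (w : Q) (h : γ * (tt w)⁻¹ ∈ Wg π σ)
    (hα : α ∈ Wg π σ) (α1 : α 1 = 1) {b : Q} (hb : π b = 1) :
    γ (α b) = (tt w * α * (tt w)⁻¹) (γ b) := by
  have h1 := c.W_commN h (by rw [Perm.mul_apply, inv_one (tt_one w), γ1])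
    (c.W_conj (tt_mem w) hα) (by simp only [Perm.mul_apply]; rw [inv_one (tt_one w), α1, tt_one])
    (N_normal π (tt_mem w) (tt_one w) hb)
  simpa using h1

omit d in
theorem aff_mul (x y : Q) {a b : Q} (ha : π a = 1) (hb : π b = 1) :
    (x * a) * (y * b) = (x * y) * (Phi x y a * LL x y b) := by
  have e1 : LL (x * a) y b = LL x y b := by
    refine c.agree (LL_mem _ _) (LL_one _ _) (LL_mem _ _) (LL_one _ _) (fun z => ?_) hb
    apply lcan (a := π x * π y)
    have h1 := congrArg π (LL_spec (x * a) y z)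
    have h2 := congrArg π (LL_spec x y z)
    simp only [map_mul, ha, mul_one] at h1 h2
    rw [h1, h2]
  rw [← LL_spec, e1, ← Phi_spec x y a,
    c.N_aff _ (N_normal π (Phi_mem _ _) (Phi_one _ _) ha) (N_normal π (LL_mem _ _) (LL_one _ _) hb)]

omit d in
theorem delta (x : Q) {b : Q} (hb : π b = 1) :
    ∃ e, π e = 1 ∧ (tt b)⁻¹ x = x * e ∧ e * b = tt x b := by
  have h1 : π ((tt b)⁻¹ x) = π x := by
    have := congrArg π (ttinv_spec b x)
    simpa [hb] using this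
  obtain ⟨e, he, e1⟩ := exists_ker π h1
  refine ⟨e, he, e1, ?_⟩
  apply lcan (a := x)
  rw [tt_spec, ← c.N_aff x he hb, ← e1, ttinv_spec]

theorem K_triv {k : Perm Q} (hk : k ∈ Kg π) (h1 : ∀ s, σ (π s) = 1 → s ∈ Uset π P → k s = s) :
    k = 1 := by
  refine c.V_eq_one d (K_le_V π hk) (fun w hw => ?_)
  obtain ⟨a, ha, e⟩ := exists_ker π (hk.2.2 w)
  have kaut := aut_of_mem hk.1 hk.2.1
  have hN := normal_ker π
  let ι := {s : Q // σ (π s) = 1 ∧ s ∈ Uset π P}
  have htS : ∀ s : ι, σ (π (tt w s.1)) = 1 ∧ tt w s.1 ∈ Uset π P := by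
    intro s
    have hm := M_normal π σ (tt_mem w) (tt_one w) s.2.1
    refine ⟨hm, ?_⟩
    obtain ⟨u, hu, e1⟩ := c.U_ex d (tt w s.1)
    have hu' : σ (π u) = 1 := by rw [e1, hm]
    have h2 := c.U_mulS d hu' hu hw
    have h3 := c.S_mulU d s.2.1 s.2.2 hw
    rw [← tt_spec] at h3
    have := c.U_uniq d h3 h2 (by rw [map_mul, map_mul, e1])
    rw [← lcan this]; exact hu
  let t : ι → ι := fun s => ⟨tt w s.1, htS s⟩
  have ht : Function.Surjective t :=
    Finite.injective_iff_surjective.1 (fun s s' h => Subtype.ext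
      ((tt w).injective (congrArg Subtype.val h)))
  let l : ι → NG _ c.nA c.nC →* NG _ c.nA c.nC :=
    fun s => rho c.nA c.nC hN (LL s.1 w) (LL_mem _ _) (LL_one _ _)
  let φ : ι → NG _ c.nA c.nC →* NG _ c.nA c.nC :=
    fun s => rho c.nA c.nC hN (Phi w s.1) (Phi_mem _ _) (Phi_one _ _)
  let τ : ι → NG _ c.nA c.nC →* NG _ c.nA c.nC :=
    fun s => rho c.nA c.nC hN (tt s.1)⁻¹ (inv_mem (tt_mem _)) (inv_one (tt_one _))
  have key := abstract_vanish l φ τ t ht ?_ ?_ ?_ ?_ ?_ ?_ ?_ (⟨a, ha⟩ : NG _ c.nA c.nC) ?_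
  · have : a = 1 := congrArg Subtype.val key
    rw [e, this, mul_one]
  · intro s b
    apply Subtype.ext
    show LL s.1 w b.1 = (tt s.1)⁻¹ (Phi w s.1 b.1)
    have haut : (tt s.1)⁻¹ ∈ AutG Q := inv_mem (tt_aut _)
    have hs : (tt s.1)⁻¹ s.1 = s.1 := by
      apply (tt s.1).injective; rw [tt_self]; simp
    apply lcan (a := s.1 * w)
    rw [LL_spec, aut_Phi haut, hs, ← ttinv_spec s.1 w, Phi_spec, ← haut, ttinv_spec]
  · intro s s' b
    exact Subtype.ext (c.W_commN (c.LL_W s.2.1 w) (LL_one _ _) (c.LL_W s'.2.1 w) (LL_one _ _) b.2)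
  · intro s s' b
    exact Subtype.ext (c.W_commN (c.Phi_W s.2.1 w) (Phi_one _ _) (c.LL_W s'.2.1 w)
      (LL_one _ _) b.2)
  · intro s b
    exact Subtype.ext (c.W_commN (inv_mem (c.tt_W s.2.1)) (inv_one (tt_one _))
      (c.Phi_W s.2.1 w) (Phi_one _ _) b.2)
  · intro s0 s b
    have hs0 := s0.2.1
    have hts := (htS s0).1
    let g1 := rho c.nA c.nC hN (LL s0.1 w * tt w) (mul_mem (LL_mem _ _) (tt_mem _))
      (by rw [Perm.mul_apply, tt_one, LL_one])
    let g2 := rho c.nA c.nC hN (tt (s0.1 * w)) (tt_mem _) (tt_one _)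
    let g3 := rho c.nA c.nC hN (Phi s0.1 w * tt s0.1) (mul_mem (Phi_mem _ _) (tt_mem _))
      (by rw [Perm.mul_apply, tt_one, Phi_one])
    let g4 := rho c.nA c.nC hN (Phi s0.1 w) (Phi_mem _ _) (Phi_one _ _)
    have hD : ∀ b, l s0 b * b⁻¹ = g3 b * (g4 b)⁻¹ * g1 b * (g2 b)⁻¹ := by
      intro b
      obtain ⟨e1, he1, a1, b1⟩ := c.delta s0.1 b.2
      obtain ⟨e2, he2, a2, b2⟩ := c.delta w b.2
      obtain ⟨e3, he3, a3, b3⟩ := c.delta (s0.1 * w) b.2
      have haut : (tt b.1)⁻¹ ∈ AutG Q := inv_mem (tt_aut _)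
      rw [haut, a1, a2, c.aff_mul _ _ he1 he2] at a3
      have a4 := lcan a3
      let E1 : NG _ c.nA c.nC := ⟨e1, he1⟩
      let E2 : NG _ c.nA c.nC := ⟨e2, he2⟩
      let E3 : NG _ c.nA c.nC := ⟨e3, he3⟩
      have f1 : g3 b = g4 (E1 * b) := Subtype.ext (by
        show Phi s0.1 w (tt s0.1 b.1) = Phi s0.1 w (e1 * b.1)
        rw [b1])
      have f2 : g1 b = l s0 (E2 * b) := Subtype.ext (by
        show LL s0.1 w (tt w b.1) = LL s0.1 w (e2 * b.1)
        rw [b2])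
      have f3 : g2 b = E3 * b := Subtype.ext b3.symm
      have f4 : E3 = g4 E1 * l s0 E2 := Subtype.ext a4.symm
      rw [f1, f2, f3, f4, map_mul, map_mul]
      exact comm_ident _ _ _ _ _
    have hconj : tt w * Phi w s.1 * (tt w)⁻¹ = Phi w (tt w s.1) := by
      ext z
      simp only [Perm.mul_apply]
      rw [aut_Phi (tt_aut w), tt_self]; simp
    have hPh : Phi s0.1 w * (tt w)⁻¹ ∈ Wg π σ := by
      refine c.tw_of (Phi_mem _ _) (Phi_one _ _) w (fun z => ?_) (fun m hm => ?_)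
      · have h2 := congrArg (fun x => σ (π x)) (Phi_spec s0.1 w z)
        have h3 := congrArg (fun x => σ (π x)) (tt_spec w z)
        simp only [map_mul, hs0, one_mul] at h2 h3
        exact lcan (h2.trans h3.symm)
      · apply lcan (a := π (s0.1 * w))
        rw [← map_mul, Phi_spec, ← tt_spec w (s0.1 * m), tt_aut,
          ← c.affQ _ hts (M_normal π σ (tt_mem w) (tt_one w) hm), tt_spec, map_mul π (s0.1 * w)]
    have t1 : ∀ b, g1 (φ s b) = φ (t s) (g1 b) := fun b => Subtype.ext (by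
      have := c.twist (γ := LL s0.1 w * tt w) (by rw [Perm.mul_apply, tt_one, LL_one]) w
        (by simpa using c.LL_W hs0 w) (c.Phi_W s.2.1 w) (Phi_one _ _) b.2
      rw [hconj] at this
      exact this)
    have t2 : ∀ b, g2 (φ s b) = φ (t s) (g2 b) := fun b => Subtype.ext (by
      have := c.twist (γ := tt (s0.1 * w)) (tt_one _) w (by
        refine c.tw_of (tt_mem _) (tt_one _) w (fun z => ?_) (fun m hm => ?_)
        · have h2 := congrArg (fun x => σ (π x)) (tt_spec (s0.1 * w) z)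
          have h3 := congrArg (fun x => σ (π x)) (tt_spec w z)
          simp only [map_mul, hs0, one_mul] at h2 h3
          exact lcan (h2.trans h3.symm)
        · have htm := M_normal π σ (tt_mem w) (tt_one w) hm
          apply lcan (a := π (s0.1 * w))
          rw [← map_mul, tt_spec, ← tt_spec w s0.1]
          have h4 := (c.L_W hm).2.2 w _ hts
          simp only [L_apply] at h4
          rw [h4, ← tt_spec w m]
          simp only [map_mul]
          rw [c.aff _ _ _ htm hts, c.aff _ _ _ hts htm, c.eC _ htm _ hts])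
        (c.Phi_W s.2.1 w) (Phi_one _ _) b.2
      rw [hconj] at this
      exact this)
    have t3 : ∀ b, g3 (φ s b) = φ (t s) (g3 b) := fun b => Subtype.ext (by
      have := c.twist (γ := Phi s0.1 w * tt s0.1) (by rw [Perm.mul_apply, tt_one, Phi_one]) w
        (by
          have h5 := mul_mem hPh (c.W_conj (tt_mem w) (c.tt_W hs0))
          have e5 : Phi s0.1 w * (tt w)⁻¹ * (tt w * tt s0.1 * (tt w)⁻¹) =
            Phi s0.1 w * tt s0.1 * (tt w)⁻¹ := by group
          rwa [e5] at h5) (c.Phi_W s.2.1 w) (Phi_one _ _) b.2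
      rw [hconj] at this
      exact this)
    have t4 : ∀ b, g4 (φ s b) = φ (t s) (g4 b) := fun b => Subtype.ext (by
      have := c.twist (γ := Phi s0.1 w) (Phi_one _ _) w hPh (c.Phi_W s.2.1 w) (Phi_one _ _) b.2
      rw [hconj] at this
      exact this)
    rw [hD, hD, t1, t2, t3, t4]
    simp only [map_mul, map_inv]
  · intro b hb
    apply Subtype.ext
    apply d.h5 b.1 b.2
    intro m hm
    obtain ⟨u, hu, e1⟩ := c.U_ex d m
    have hu' : σ (π u) = 1 := by rw [e1, hm]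
    have h2 : (tt u)⁻¹ b.1 = b.1 := congrArg Subtype.val (hb ⟨u, hu', hu⟩)
    have h3 : tt u b.1 = b.1 := by
      have := congrArg (tt u) h2
      simpa using this.symm
    have h4 : tt m b.1 = tt u b.1 := by
      refine c.agree (tt_mem _) (tt_one _) (tt_mem _) (tt_one _) (fun z => ?_) b.2
      apply lcan (a := π m)
      rw [← map_mul, tt_spec, ← e1, ← map_mul, tt_spec, map_mul, map_mul, e1]
    rw [← tt_spec m b.1, h4, h3]
  · intro s x y h
    exact Subtype.ext ((Phi w s.1).injective (congrArg Subtype.val h))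
  · intro s
    apply Subtype.ext
    show LL s.1 w a = Phi w (tt w s.1) a
    apply lcan (a := s.1 * w)
    have h2 := kaut s.1 w
    rw [h1 _ s.2.1 s.2.2, e] at h2
    have h3 := kaut w (tt w s.1)
    rw [h1 _ (htS s).1 (htS s).2, e, tt_spec] at h3
    rw [LL_spec, ← h2, h3, ← tt_spec w s.1, Phi_spec]

theorem U_mul {u v : Q} (hu : u ∈ Uset π P) (hv : v ∈ Uset π P) : u * v ∈ Uset π P := by
  obtain ⟨h, hh, hn, k, hk, e⟩ := c.decomp d (L_mem u) (by simpa using hu)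
  have hk1 : k = 1 := c.K_triv d hk (fun s hs hsu => by
    have := c.U_inv d (inv_mem hh) (inv_mem hn) (c.U_mulS d hs hsu hu)
    have e2 : h⁻¹ (u * s) = k s := by rw [← L_apply, e]; simp
    rw [e2] at this
    exact c.U_uniq d hsu this (hk.2.2 s))
  rw [hk1, mul_one] at e
  rw [← L_apply, e]
  exact c.U_inv d hh hn hv

omit d in
theorem split (hne : MonoidHom.mker π ≠ ⊥)
    (h5 : ∀ a, π a = 1 → (∀ m, σ (π m) = 1 → m * a = a * m) → a = 1) :
    ∃ U : Submonoid Q, U ≠ ⊤ ∧ ∀ y, ∃ u ∈ U, π u = π y := by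
  obtain ⟨P, d⟩ := c.exists_PData h5
  refine ⟨{ carrier := Uset π P, one_mem' := c.U_one d, mul_mem' := c.U_mul d }, fun e => hne ?_,
    c.U_ex d⟩
  rw [Submonoid.eq_bot_iff_forall]
  intro a ha
  have : a ∈ ({ carrier := Uset π P, one_mem' := c.U_one d, mul_mem' := c.U_mul d } :
    Submonoid Q) := by rw [e]; trivial
  exact c.U_ker d this ha

end Ctx

end Pool.Agent.H284Z
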