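import Pool.Agent.H284Z.Affine

set_option autoImplicit false
set_option linter.style.haveILetI false
set_option linter.unusedSectionVars false
set_option linter.unusedVariables false

namespace Pool.Agent.H284Z

open Equiv

theorem frattini_top {G : Type} [Group G] [Finite G] (W V : Subgroup G) [W.Normal] [V.Normal]
    {q : ℕ} (hq : q.Prime) (hw : ∀ w ∈ W, w ^ q ∈ V) :
    ∃ P : Subgroup G, P ≤ W ∧ IsPGroup q P ∧ (∀ w ∈ W, ∃ x ∈ P, ∃ v ∈ V, w = x * v) ∧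
      ∀ g, ∃ h ∈ Subgroup.normalizer (P : Set G), ∃ v ∈ V, g = h * v := by
  haveI := Fact.mk hq
  obtain ⟨P0⟩ : Nonempty (Sylow q W) := inferInstance
  have h2 : ∀ w ∈ W, ∃ x ∈ (P0 : Subgroup W).map W.subtype, ∃ v ∈ V, w = x * v := by
    intro w hw'
    have hs := QuotientGroup.mk'_surjective (V.subgroupOf W)
    have hQ : IsPGroup q (⊤ : Subgroup (W ⧸ V.subgroupOf W)) := by
      rintro ⟨y, -⟩
      obtain ⟨y, rfl⟩ := hs y
      refine ⟨1, Subtype.ext ?_⟩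
      show (QuotientGroup.mk' (V.subgroupOf W) y) ^ (q ^ 1) = 1
      rw [pow_one, ← map_pow, QuotientGroup.mk'_apply, QuotientGroup.eq_one_iff]
      exact hw y y.2
    have h3 := (P0.mapSurjective hs).is_maximal' hQ le_top
    have h4 : QuotientGroup.mk' (V.subgroupOf W) ⟨w, hw'⟩ ∈
        (P0 : Subgroup W).map (QuotientGroup.mk' (V.subgroupOf W)) := by
      rw [← Sylow.coe_mapSurjective hs, ← h3]; trivial
    obtain ⟨x, hx, e⟩ := h4
    rw [QuotientGroup.mk'_apply, QuotientGroup.mk'_apply, QuotientGroup.eq] at e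
    exact ⟨x, ⟨x, hx, rfl⟩, (x : G)⁻¹ * w, e, by group⟩
  refine ⟨(P0 : Subgroup W).map W.subtype, Subgroup.map_subtype_le _, P0.isPGroup'.map _, h2,
    fun g => ?_⟩
  have h5 : g ∈ Subgroup.normalizer (((P0 : Subgroup W).map W.subtype : Subgroup G) : Set G) ⊔ W := by
    rw [Sylow.normalizer_sup_eq_top P0]; trivial
  obtain ⟨y, hy, z, hz, rfl⟩ := Subgroup.mem_sup_of_normal_right.1 h5
  obtain ⟨x, hx, v, hv, rfl⟩ := h2 z hz
  exact ⟨y * x, mul_mem hy (Subgroup.le_normalizer hx), v, hv, by group⟩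

theorem frattini_pack {G : Type} [Group G] [Finite G] (M W V : Subgroup G) (hWM : W ≤ M)
    (hVW : V ≤ W) (hWn : ∀ g ∈ M, ∀ w ∈ W, g * w * g⁻¹ ∈ W)
    (hVn : ∀ g ∈ M, ∀ w ∈ V, g * w * g⁻¹ ∈ V) {q : ℕ} (hq : q.Prime) (hw : ∀ w ∈ W, w ^ q ∈ V) :
    ∃ P : Subgroup G, P ≤ W ∧ IsPGroup q P ∧ (∀ w ∈ W, ∃ x ∈ P, ∃ v ∈ V, w = x * v) ∧
      ∀ g ∈ M, ∃ h ∈ M, h ∈ Subgroup.normalizer (P : Set G) ∧ ∃ v ∈ V, g = h * v := by
  haveI : (W.subgroupOf M).Normal := ⟨fun n hn g => hWn g g.2 n hn⟩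
  haveI : (V.subgroupOf M).Normal := ⟨fun n hn g => hVn g g.2 n hn⟩
  obtain ⟨P, h1, h2, h3, h4⟩ := frattini_top (W.subgroupOf M) (V.subgroupOf M) hq
    (fun w hw' => hw w hw')
  refine ⟨P.map M.subtype, ?_, h2.map _, ?_, ?_⟩
  · rintro _ ⟨x, hx, rfl⟩; exact h1 hx
  · intro w hw'
    obtain ⟨x, hx, v, hv, e⟩ := h3 ⟨w, hWM hw'⟩ hw'
    exact ⟨x, ⟨x, hx, rfl⟩, v, hv, congrArg Subtype.val e⟩
  · intro g hg
    obtain ⟨h, hh, v, hv, e⟩ := h4 ⟨g, hg⟩
    refine ⟨h, h.2, ?_, v, hv, congrArg Subtype.val e⟩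
    rw [Subgroup.mem_normalizer_iff] at hh ⊢
    intro x
    constructor
    · rintro ⟨x, hx, rfl⟩
      exact ⟨h * x * h⁻¹, (hh x).1 hx, rfl⟩
    · rintro ⟨y, hy, e⟩
      refine ⟨h⁻¹ * y * h, (hh _).2 (by simpa [mul_assoc] using hy), ?_⟩
      have e' : (y : G) = h * x * (h : G)⁻¹ := e
      show (h : G)⁻¹ * y * h = x
      rw [e']; group

theorem abstract_vanish {A ι : Type} [CommGroup A] (l φ τ : ι → A →* A) (t : ι → ι)
    (ht : Function.Surjective t) (ha : ∀ s b, l s b = τ s (φ s b))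
    (c1 : ∀ s s' b, l s (l s' b) = l s' (l s b)) (c2 : ∀ s s' b, φ s (l s' b) = l s' (φ s b))
    (c3 : ∀ s b, τ s (φ s b) = φ s (τ s b))
    (hc : ∀ s0 s b, l s0 (φ s b) * (φ s b)⁻¹ = φ (t s) (l s0 b * b⁻¹))
    (hd : ∀ a, (∀ s, τ s a = a) → a = 1) (he : ∀ s, Function.Injective (φ s))
    (a : A) (h : ∀ s, l s a = φ (t s) a) : a = 1 := by
  have h1 : ∀ s0, l s0 a = a := by
    intro s0
    have : l s0 a * a⁻¹ = 1 := by
      apply hd
      intro s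
      apply he s
      have e1 : l s (l s0 a * a⁻¹) = φ (t s) (l s0 a * a⁻¹) := by
        rw [map_mul, map_mul, map_inv, map_inv, c1, h s, c2]
      have e2 : φ (t s) (l s0 a * a⁻¹) = φ s (l s0 a * a⁻¹) := by
        rw [← hc, map_mul, map_inv, c2]
      rw [← c3, ← ha, e1, e2]
    exact mul_inv_eq_one.1 this
  apply hd
  intro s
  obtain ⟨s', hs'⟩ := ht s
  have e1 : φ s a = a := by rw [← hs', ← h, h1]
  have e2 := ha s a
  rw [e1, h1] at e2
  exact e2.symm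

variable {Q F F₂ : Type} [ALoop Q] [ALoop F] [ALoop F₂] [Finite Q] [Finite F]

/-- the abelian group carried by an abelian subloop -/
def NG (X : Submonoid Q) (hA : Asc X) (hC : Com X) : Type := X

noncomputable instance (X : Submonoid Q) (hA : Asc X) (hC : Com X) : CommGroup (NG X hA hC) :=
  { grp X hA with mul_comm := fun a b => Subtype.ext (hC _ a.2 _ b.2) }

/-- restriction of an inner mapping -/
def rho {X : Submonoid Q} (hA : Asc X) (hC : Com X) (hX : IsNormal X) (g : Perm Q)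
    (hg : g ∈ Mlt Q) (h1 : g 1 = 1) : NG X hA hC →* NG X hA hC where
  toFun a := ⟨g a.1, hX g hg h1 _ a.2⟩
  map_one' := Subtype.ext h1
  map_mul' a b := Subtype.ext (aut_of_mem hg h1 a.1 b.1)

/-- standing hypotheses -/
structure Ctx (π : Q →* F) (σ : F →* F₂) (p q : ℕ) : Prop where
  hp : p.Prime
  hq : q.Prime
  hpq : p ≠ q
  nA : Asc (MonoidHom.mker π)
  nC : Com (MonoidHom.mker π)
  nE : ∀ a ∈ MonoidHom.mker π, pw a p = 1
  hK : ∀ k ∈ Kg π, ∀ a, π a = 1 → k a = a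
  eC : Com (MonoidHom.mker σ)
  eE : ∀ a ∈ MonoidHom.mker σ, pw a q = 1
  aff : ∀ y e s : F, σ e = 1 → σ s = 1 → (y * e) * s = y * (e * s)

/-- elements of the multiplication group trivial on the quotient -/
def Vg (π : Q →* F) : Subgroup (Perm Q) where
  carrier := {g | g ∈ Mlt Q ∧ ∀ y, π (g y) = π y}
  one_mem' := ⟨one_mem _, fun _ => rfl⟩
  mul_mem' := by
    rintro g h ⟨hg, hg2⟩ ⟨hh, hh2⟩
    exact ⟨mul_mem hg hh, fun y => by rw [Perm.mul_apply, hg2, hh2]⟩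
  inv_mem' := by
    rintro g ⟨hg, hg2⟩
    exact ⟨inv_mem hg, fun y => by rw [← hg2 (g⁻¹ y)]; simp⟩

/-- elements acting on the first quotient as translations -/
def Wg (π : Q →* F) (σ : F →* F₂) : Subgroup (Perm Q) where
  carrier := {g | g ∈ Mlt Q ∧ (∀ y, σ (π (g y)) = σ (π y)) ∧
    ∀ y m, σ (π m) = 1 → π (g (y * m)) = π (g y) * π m}
  one_mem' := ⟨one_mem _, fun _ => rfl, fun y m _ => map_mul π y m⟩
  mul_mem' := by
    rintro g h ⟨hg, hg1, hg2⟩ ⟨hh, hh1, hh2⟩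
    refine ⟨mul_mem hg hh, fun y => by rw [Perm.mul_apply, hg1, hh1], fun y m hm => ?_⟩
    simp only [Perm.mul_apply]
    rw [← hg2 _ m hm]
    exact congr_mem π hg (by rw [hh2 y m hm, map_mul])
  inv_mem' := by
    rintro g ⟨hg, hg1, hg2⟩
    refine ⟨inv_mem hg, fun y => by rw [← hg1 (g⁻¹ y)]; simp, fun y m hm => ?_⟩
    have h1 := hg2 (g⁻¹ y) m hm
    have e0 : g (g⁻¹ y) = y := by simp
    rw [e0, ← map_mul π y m] at h1
    have h2 := congr_mem π (inv_mem hg) h1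
    have e1 : g⁻¹ (g (g⁻¹ y * m)) = g⁻¹ y * m := by simp
    rw [e1, map_mul] at h2
    exact h2.symm

theorem V_conj (π : Q →* F) {g v : Perm Q} (hg : g ∈ Mlt Q) (hv : v ∈ Vg π) :
    g * v * g⁻¹ ∈ Vg π := by
  refine ⟨mul_mem (mul_mem hg hv.1) (inv_mem hg), fun y => ?_⟩
  simp only [Perm.mul_apply]
  rw [congr_mem π hg (hv.2 _)]; simp

theorem V_le_W (π : Q →* F) (σ : F →* F₂) : Vg π ≤ Wg π σ := by
  rintro v ⟨hv, h⟩
  exact ⟨hv, fun y => by rw [h], fun y m _ => by rw [h, h, map_mul]⟩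

theorem K_le_V (π : Q →* F) : Kg π ≤ Vg π := fun k hk => ⟨hk.1, hk.2.2⟩

theorem W_of_aut (π : Q →* F) (σ : F →* F₂) {g : Perm Q} (hg : g ∈ Mlt Q) (h1 : g 1 = 1)
    (h2 : ∀ y, σ (π (g y)) = σ (π y)) (h3 : ∀ m, σ (π m) = 1 → π (g m) = π m) : g ∈ Wg π σ :=
  ⟨hg, h2, fun y m hm => by rw [aut_of_mem hg h1, map_mul, h3 m hm]⟩

theorem M_normal (π : Q →* F) (σ : F →* F₂) {g : Perm Q} (hg : g ∈ Mlt Q) (h1 : g 1 = 1) {m : Q}
    (hm : σ (π m) = 1) : σ (π (g m)) = 1 := normal_ker (σ.comp π) g hg h1 m hm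

theorem N_normal (π : Q →* F) {g : Perm Q} (hg : g ∈ Mlt Q) (h1 : g 1 = 1) {m : Q}
    (hm : π m = 1) : π (g m) = 1 := normal_ker π g hg h1 m hm

namespace Ctx

variable {π : Q →* F} {σ : F →* F₂} {p q : ℕ} (c : Ctx π σ p q)
include c

theorem agree {γ δ : Perm Q} (hγ : γ ∈ Mlt Q) (γ1 : γ 1 = 1) (hδ : δ ∈ Mlt Q) (δ1 : δ 1 = 1)
    (h : ∀ y, π (γ y) = π (δ y)) {a : Q} (ha : π a = 1) : γ a = δ a := by
  have hk : δ⁻¹ * γ ∈ Kg π := by
    refine ⟨mul_mem (inv_mem hδ) hγ, by rw [Perm.mul_apply, γ1, inv_one δ1], fun y => ?_⟩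
    rw [Perm.mul_apply, congr_mem π (inv_mem hδ) (h y)]; simp
  have := congrArg δ (c.hK _ hk a ha)
  simpa using this

theorem V_trans {v : Perm Q} (hv : v ∈ Vg π) (y : Q) {a : Q} (ha : π a = 1) :
    v (y * a) = v y * a := by
  have hk : (L (v y))⁻¹ * v * L y ∈ Kg π := by
    refine ⟨mul_mem (mul_mem (inv_mem (L_mem _)) hv.1) (L_mem _), by simp, fun z => ?_⟩
    apply lcan (a := π (v y))
    rw [← map_mul]
    simp only [Perm.mul_apply, mul_Linv, L_apply]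
    rw [hv.2, hv.2, map_mul]
  have := congrArg (L (v y)) (c.hK _ hk a ha)
  simpa using this

theorem N_aff (z : Q) {a b : Q} (ha : π a = 1) (hb : π b = 1) : (z * a) * b = z * (a * b) := by
  have hk : LL z a ∈ Kg π := by
    refine ⟨LL_mem _ _, aut_one (LL_aut _ _), fun y => ?_⟩
    apply lcan (a := π (z * a))
    rw [← map_mul, LL_spec]
    simp [ha]
  rw [← LL_spec, c.hK _ hk b hb]

theorem V_comm {v w : Perm Q} (hv : v ∈ Vg π) (hw : w ∈ Vg π) : v * w = w * v := by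
  ext y
  obtain ⟨a, ha, e1⟩ := exists_ker π (hv.2 y)
  obtain ⟨b, hb, e2⟩ := exists_ker π (hw.2 y)
  simp only [Perm.mul_apply]
  rw [e2, c.V_trans hv y hb, e1, c.V_trans hw y ha, e2, c.N_aff y ha hb, c.N_aff y hb ha,
    c.nC a ha b hb]

theorem affQ (y : Q) {e s : Q} (he : σ (π e) = 1) (hs : σ (π s) = 1) :
    π ((y * e) * s) = π (y * (e * s)) := by
  simp only [map_mul]; exact c.aff _ _ _ he hs

theorem R_W {m : Q} (hm : σ (π m) = 1) : R m ∈ Wg π σ := by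
  refine ⟨R_mem _, fun y => by simp [hm], fun y e he => ?_⟩
  simp only [R_apply, map_mul]
  rw [c.aff _ _ _ he hm, c.aff _ _ _ hm he, c.eC _ he _ hm]

theorem tt_W {m : Q} (hm : σ (π m) = 1) : tt m ∈ Wg π σ := by
  refine W_of_aut π σ (tt_mem _) (aut_one (tt_aut _)) (fun y => ?_) (fun e he => ?_)
  · have := congrArg (fun x => σ (π x)) (tt_spec m y)
    simpa [hm] using this
  · apply lcan (a := π m)
    rw [← map_mul, tt_spec, map_mul, c.eC _ he _ hm]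

theorem L_W {m : Q} (hm : σ (π m) = 1) : L m ∈ Wg π σ := by
  have : L m = R m * (tt m)⁻¹ := by simp [tt]
  rw [this]
  exact mul_mem (c.R_W hm) (inv_mem (c.tt_W hm))

theorem W_conj {g w : Perm Q} (hg : g ∈ Mlt Q) (hw : w ∈ Wg π σ) : g * w * g⁻¹ ∈ Wg π σ := by
  have h1 : ∀ γ ∈ Mlt Q, γ 1 = 1 → ∀ w ∈ Wg π σ, γ⁻¹ * w * γ ∈ Wg π σ := by
    rintro γ hγ γ1 w ⟨hw, hw1, hw2⟩
    refine ⟨mul_mem (mul_mem (inv_mem hγ) hw) hγ, fun y => ?_, fun y m hm => ?_⟩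
    · have := congr_mem (σ.comp π) (inv_mem hγ) (x := w (γ y)) (y := γ y) (hw1 _)
      simpa using this
    · simp only [Perm.mul_apply]
      rw [aut_of_mem hγ γ1]
      have h2 := hw2 (γ y) (γ m) (M_normal π σ hγ γ1 hm)
      rw [← map_mul π (w (γ y))] at h2
      rw [congr_mem π (inv_mem hγ) h2, aut_of_mem (inv_mem hγ) (inv_one γ1), map_mul]
      simp
  have h2 : ∀ x, ∀ w ∈ Wg π σ, (L x)⁻¹ * w * L x ∈ Wg π σ := by
    rintro x w ⟨hw, hw1, hw2⟩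
    have h3 : ∀ y, σ (π (((L x)⁻¹ * w * L x) y)) = σ (π y) := by
      intro y
      have := congr_mem (σ.comp π) (inv_mem (L_mem x)) (x := w (x * y)) (y := x * y) (hw1 _)
      simpa using this
    refine ⟨mul_mem (mul_mem (inv_mem (L_mem _)) hw) (L_mem _), h3, fun y m hm => ?_⟩
    obtain ⟨d, hd, e⟩ := exists_ker (σ.comp π) (h3 y)
    have hd' : σ (π d) = 1 := hd
    have l1 := aut_one (LL_aut x y)
    have hψm := M_normal π σ (LL_mem x y) l1 hm
    have hψd := M_normal π σ (LL_mem x y) l1 hd'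
    have e2 : w (x * y) = x * (y * d) := by rw [← e]; simp
    apply lcan (a := π x)
    rw [e, ← map_mul]
    simp only [Perm.mul_apply, mul_Linv, L_apply]
    rw [← LL_spec, hw2 _ _ hψm, e2, ← map_mul π (y * d), c.affQ y hd' hm, ← map_mul π x,
      ← LL_spec x y (d * m), LL_aut, ← c.affQ _ hψd hψm, LL_spec, map_mul π (x * (y * d))]
  obtain ⟨x, γ, hγ, e⟩ := exists_decomp (inv_mem hg)
  have hγm : γ ∈ Mlt Q := by
    have : γ = (L x)⁻¹ * g⁻¹ := by rw [e]; group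
    rw [this]; exact mul_mem (inv_mem (L_mem _)) (inv_mem hg)
  have e2 : g * w * g⁻¹ = γ⁻¹ * ((L x)⁻¹ * w * L x) * γ := by
    have : g = (L x * γ)⁻¹ := by rw [← e]; group
    rw [this]; group
  rw [e2]
  exact h1 γ hγm (aut_one hγ) _ (h2 x w hw)

theorem W_pow {w : Perm Q} (hw : w ∈ Wg π σ) : w ^ q ∈ Vg π := by
  refine ⟨pow_mem hw.1 q, fun y => ?_⟩
  obtain ⟨d, hd, e⟩ := exists_ker (σ.comp π) (hw.2.1 y)
  have hd' : σ (π d) = 1 := hd
  have hdn : ∀ n, σ (π (pw d n)) = 1 := fun n =>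
    pw_mem (X := MonoidHom.mker (σ.comp π)) hd n
  have : ∀ n, π ((w ^ n) y) = π (y * pw d n) := by
    intro n
    induction n with
    | zero => simp [pw]
    | succ n ih =>
      rw [pow_succ', Perm.mul_apply, congr_mem π hw.1 ih, hw.2.2 _ _ (hdn n), e]
      simp only [pw, map_mul]
      rw [c.aff _ _ _ hd' (hdn n), c.eC _ hd' _ (hdn n)]
  rw [this, map_mul, hom_pw, c.eE _ hd', mul_one]

theorem W_comm {v w : Perm Q} (hv : v ∈ Wg π σ) (hw : w ∈ Wg π σ) (y : Q) :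
    π (v (w y)) = π (w (v y)) := by
  obtain ⟨a, ha, e1⟩ := exists_ker (σ.comp π) (hv.2.1 y)
  obtain ⟨b, hb, e2⟩ := exists_ker (σ.comp π) (hw.2.1 y)
  have ha' : σ (π a) = 1 := ha
  have hb' : σ (π b) = 1 := hb
  rw [e2, hv.2.2 _ _ hb', e1, hw.2.2 _ _ ha', e2]
  simp only [map_mul]
  rw [c.aff _ _ _ ha' hb', c.aff _ _ _ hb' ha', c.eC _ ha' _ hb']

theorem W_commN {γ δ : Perm Q} (hγ : γ ∈ Wg π σ) (γ1 : γ 1 = 1) (hδ : δ ∈ Wg π σ) (δ1 : δ 1 = 1)
    {a : Q} (ha : π a = 1) : γ (δ a) = δ (γ a) :=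
  c.agree (γ := γ * δ) (δ := δ * γ) (mul_mem hγ.1 hδ.1) (by rw [Perm.mul_apply, δ1, γ1])
    (mul_mem hδ.1 hγ.1) (by rw [Perm.mul_apply, γ1, δ1]) (fun y => c.W_comm hγ hδ y) ha

theorem W_fixM {γ : Perm Q} (hγ : γ ∈ Wg π σ) (γ1 : γ 1 = 1) {m : Q} (hm : σ (π m) = 1) :
    π (γ m) = π m := by
  have := hγ.2.2 1 m hm
  rwa [one_mul, γ1, map_one, one_mul] at this

theorem case_central (hc : ∀ m a, σ (π m) = 1 → π a = 1 → m * a = a * m) :
    Asc (MonoidHom.mker (σ.comp π)) ∧ Com (MonoidHom.mker (σ.comp π)) := by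
  have hNM : ∀ {a : Q}, π a = 1 → σ (π a) = 1 := fun ha => by rw [ha, map_one]
  have hMM : ∀ {a b : Q}, σ (π a) = 1 → σ (π b) = 1 → σ (π (a * b)) = 1 := fun ha hb => by
    rw [map_mul, map_mul, ha, hb, mul_one]
  have hLL : ∀ m m', σ (π m) = 1 → σ (π m') = 1 → LL m m' ∈ Kg π := by
    intro m m' hm hm'
    refine ⟨LL_mem _ _, aut_one (LL_aut _ _), fun y => ?_⟩
    have t1 := aut_one (tt_aut y)
    have a1 := M_normal π σ (tt_mem y) t1 hm
    have a2 := M_normal π σ (tt_mem y) t1 hm'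
    apply lcan (a := π (m * m'))
    rw [← map_mul, ← map_mul, LL_spec, ← tt_spec y (m * m'), tt_aut, ← tt_spec y m',
      ← c.affQ _ a1 a2, map_mul π _ (tt y m'), tt_spec y m]
    exact (c.L_W hm).2.2 y _ a2
  have h1 : ∀ m m' a, σ (π m) = 1 → σ (π m') = 1 → π a = 1 → m * (m' * a) = (m * m') * a := by
    intro m m' a hm hm' ha
    rw [← LL_spec, c.hK _ (hLL m m' hm hm') a ha]
  have h2 : ∀ m m' a, σ (π m) = 1 → σ (π m') = 1 → π a = 1 → (m * a) * m' = (m * m') * a := by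
    intro m m' a hm hm' ha
    have hk : (R (m * m'))⁻¹ * R m' * R m ∈ Kg π := by
      refine ⟨mul_mem (mul_mem (inv_mem (R_mem _)) (R_mem _)) (R_mem _), by simp, fun y => ?_⟩
      apply rcan (a := π (m * m'))
      rw [← map_mul, ← map_mul]
      simp only [Perm.mul_apply, Rinv_mul, R_apply]
      exact c.affQ y hm hm'
    have := congrArg (R (m * m')) (c.hK _ hk a ha)
    simp only [Perm.mul_apply, Rinv_mul, R_apply] at this
    rw [hc m a hm ha, this, hc _ a (hMM hm hm') ha]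
  have h3 : ∀ m m' a b, σ (π m) = 1 → σ (π m') = 1 → π a = 1 → π b = 1 →
      (m * a) * (m' * b) = (m * m') * (a * b) := by
    intro m m' a b hm hm' ha hb
    rw [h1 _ _ _ (hMM hm (hNM ha)) hm' hb, h2 _ _ _ hm hm' ha, c.N_aff _ ha hb]
  have h4 : ∀ γ ∈ Wg π σ, γ 1 = 1 → (∀ a, π a = 1 → γ a = a) → ∀ m, σ (π m) = 1 → γ m = m := by
    intro γ hγ γ1 hγN m hm
    obtain ⟨d, hd, e⟩ := exists_ker π (c.W_fixM hγ γ1 hm)
    have hmn : ∀ n, σ (π (pw m n)) = 1 := fun n => pw_mem (X := MonoidHom.mker (σ.comp π)) hm n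
    have hdn : ∀ n, π (pw d n) = 1 := fun n => pw_mem (X := MonoidHom.mker π) hd n
    have h5 : ∀ n, pw (m * d) n = pw m n * pw d n := by
      intro n
      induction n with
      | zero => simp [pw]
      | succ n ih =>
        simp only [pw]
        rw [ih, h3 _ _ _ _ (hmn n) hm (hdn n) hd]
    have h6 : π (pw m q) = 1 := by rw [hom_pw]; exact c.eE _ hm
    have h7 := aut_pw (aut_of_mem hγ.1 γ1) m q
    rw [hγN _ h6, e, h5] at h7
    have h8 : pw d q = 1 := by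
      apply lcan (a := pw m q); rw [← h7, mul_one]
    have h9 : d = 1 := eq_one_of_coprime c.nA ((Nat.coprime_primes c.hp c.hq).2 c.hpq) hd
      (c.nE d hd) h8
    rw [e, h9, mul_one]
  constructor
  · intro a ha b hb d hd
    have hk := hLL a b ha hb
    rw [← LL_spec, h4 _ (V_le_W π σ (K_le_V π hk)) hk.2.1 (c.hK _ hk) d hd]
  · intro a ha b hb
    rw [← tt_spec a b, h4 _ (c.tt_W ha) (aut_one (tt_aut _)) (fun n hn => by
      apply lcan (a := a)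
      rw [tt_spec, hc a n ha hn]) b hb]

end Ctx

end Pool.Agent.H284Z
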